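import Mathlib

/-!
# MP_7753cf_ag: the rings `A(n,d)` and the strong Lefschetz property (definitions)
-/

set_option autoImplicit false

open MvPolynomial

namespace Pool.Agent.MP_7753cf

section Defs

variable (K : Type*) [Field K] (n d : ℕ)

/-- The ring `B = K[e_1,…,e_n]`, as a subalgebra of `K[x_1,…,x_n]`. -/
noncomputable def B : Subalgebra K (MvPolynomial (Fin n) K) :=
  Algebra.adjoin K {f | ∃ k, 1 ≤ k ∧ k ≤ n ∧ f = esymm (Fin n) K k}

/-- `ê_k = e_k(x_1^d,…,x_n^d)`. -/
noncomputable def ehat (k : ℕ) : MvPolynomial (Fin n) K :=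
  aeval (fun i : Fin n => (X i : MvPolynomial (Fin n) K) ^ d) (esymm (Fin n) K k)

/-- The ideal of `B` generated by `ê_1,…,ê_n`. -/
noncomputable def hatIdeal : Ideal (B K n) :=
  Ideal.span {b | ∃ k, 1 ≤ k ∧ k ≤ n ∧ (b : MvPolynomial (Fin n) K) = ehat K n d k}

/-- The ring `A(n,d) = B/(ê_1,…,ê_n)`. -/
abbrev A := B K n ⧸ hatIdeal K n d

/-- The graded piece `A_j`: the classes of the elements of `B` that are homogeneous of
degree `j` (in the grading with `deg x_i = 1`). -/
def piece (j : ℕ) : Set (A K n d) :=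
  {a | ∃ b : B K n, (b : MvPolynomial (Fin n) K).IsHomogeneous j ∧
    Ideal.Quotient.mk (hatIdeal K n d) b = a}

/-- `A(n,d)` has the strong Lefschetz property: for some `ℓ ∈ A_1` every map
`ℓ^k : A_j → A_{j+k}`, `k ≥ 1`, is injective or surjective. -/
def SLP : Prop :=
  ∃ ℓ ∈ piece K n d 1, ∀ j k : ℕ, 1 ≤ k →
    Set.InjOn (fun a => ℓ ^ k * a) (piece K n d j) ∨
    Set.SurjOn (fun a => ℓ ^ k * a) (piece K n d j) (piece K n d (j + k))

end Defs

section Basic

variable {K : Type*} [Field K] {n d : ℕ}

theorem esymm_mem_B (k : ℕ) : esymm (Fin n) K k ∈ B K n := by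
  rcases Nat.eq_zero_or_pos k with rfl | hk
  · rw [esymm_zero]; exact one_mem _
  · by_cases hkn : k ≤ n
    · exact Algebra.subset_adjoin ⟨k, hk, hkn, rfl⟩
    · have : esymm (Fin n) K k = 0 := by
        rw [esymm, Finset.powersetCard_eq_empty.2 (by simpa using hkn)]
        simp
      rw [this]; exact zero_mem _

theorem symm_of_mem_B {f : MvPolynomial (Fin n) K} (hf : f ∈ B K n) : f.IsSymmetric := by
  have : B K n ≤ symmetricSubalgebra (Fin n) K := by
    refine Algebra.adjoin_le ?_
    rintro f ⟨k, -, -, rfl⟩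
    exact esymm_isSymmetric _ _ _
  exact this hf

theorem mem_B_of_symm {f : MvPolynomial (Fin n) K} (hf : f.IsSymmetric) : f ∈ B K n := by
  obtain ⟨g, hg⟩ := esymmAlgHom_surjective (σ := Fin n) (R := K) (n := n) (by simp) ⟨f, hf⟩
  have h2 : f = aeval (fun i : Fin n => esymm (Fin n) K (i + 1)) g := by
    have := congrArg Subtype.val hg
    simp only at this
    rw [← this, esymmAlgHom_apply]
  rw [h2]
  have : aeval (fun i : Fin n => esymm (Fin n) K (i + 1)) g ∈
      Algebra.adjoin K (Set.range fun i : Fin n => esymm (Fin n) K (i + 1)) := by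
    rw [Algebra.adjoin_range_eq_range_aeval]
    exact ⟨g, rfl⟩
  refine Algebra.adjoin_mono ?_ this
  rintro _ ⟨i, rfl⟩
  exact ⟨i + 1, by omega, by omega, rfl⟩

theorem ehat_eq (k : ℕ) :
    ehat K n d k = ∑ t ∈ Finset.powersetCard k Finset.univ, ∏ i ∈ t, (X i) ^ d := by
  simp [ehat, esymm, map_sum, map_prod]

theorem ehat_symm (k : ℕ) : (ehat K n d k).IsSymmetric := by
  intro e
  have h := esymm_isSymmetric (Fin n) K k e
  have h2 : (rename e : MvPolynomial (Fin n) K →ₐ[K] _).comp
      (aeval (fun i : Fin n => (X i : MvPolynomial (Fin n) K) ^ d)) =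
      (aeval (fun i : Fin n => (X i : MvPolynomial (Fin n) K) ^ d)).comp
        (rename e : MvPolynomial (Fin n) K →ₐ[K] _) := by
    ext i : 1
    simp
  have h3 := congrArg (fun φ => φ (esymm (Fin n) K k)) h2
  simp only [AlgHom.comp_apply] at h3
  rw [ehat, h3, h]

theorem ehat_mem_B (k : ℕ) : ehat K n d k ∈ B K n := mem_B_of_symm (ehat_symm k)

theorem comp_mem_B {f : MvPolynomial (Fin n) K} (hf : f ∈ B K n) (k : ℕ) :
    homogeneousComponent k f ∈ B K n := by
  refine mem_B_of_symm fun e => ?_
  rw [rename_homogeneousComponent, symm_of_mem_B hf e]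

theorem esymm_homog (k : ℕ) : (esymm (Fin n) K k).IsHomogeneous k := by
  rw [esymm]
  refine IsHomogeneous.sum _ _ _ fun t ht => ?_
  have := IsHomogeneous.prod t (fun i => (X i : MvPolynomial (Fin n) K)) (fun _ => 1)
    (fun i _ => isHomogeneous_X K i)
  simpa [(Finset.mem_powersetCard.1 ht).2] using this

theorem ehat_homog (k : ℕ) : (ehat K n d k).IsHomogeneous (d * k) := by
  rw [ehat_eq]
  refine IsHomogeneous.sum _ _ _ fun t ht => ?_
  have := IsHomogeneous.prod t (fun i => (X i : MvPolynomial (Fin n) K) ^ d) (fun _ => d)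
    (fun i _ => isHomogeneous_X_pow i d)
  simpa [(Finset.mem_powersetCard.1 ht).2, mul_comm] using this

/-- `f` is a combination of `ê_1,…,ê_n` with coefficients in `B`. -/
def InI (K : Type*) [Field K] (n d : ℕ) (f : MvPolynomial (Fin n) K) : Prop :=
  ∃ c : ℕ → MvPolynomial (Fin n) K, (∀ k, c k ∈ B K n) ∧
    f = ∑ k ∈ Finset.Icc 1 n, c k * ehat K n d k

theorem InI.add {f g : MvPolynomial (Fin n) K} (hf : InI K n d f) (hg : InI K n d g) :
    InI K n d (f + g) := by
  obtain ⟨c, hc, rfl⟩ := hf
  obtain ⟨c', hc', rfl⟩ := hg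
  refine ⟨fun k => c k + c' k, fun k => add_mem (hc k) (hc' k), ?_⟩
  rw [← Finset.sum_add_distrib]
  exact Finset.sum_congr rfl fun k _ => by ring

theorem InI.mul {f g : MvPolynomial (Fin n) K} (hf : InI K n d f) (hg : g ∈ B K n) :
    InI K n d (g * f) := by
  obtain ⟨c, hc, rfl⟩ := hf
  refine ⟨fun k => g * c k, fun k => mul_mem hg (hc k), ?_⟩
  rw [Finset.mul_sum]
  exact Finset.sum_congr rfl fun k _ => by ring

theorem InI.zero : InI K n d 0 := ⟨fun _ => 0, fun _ => zero_mem _, by simp⟩

theorem InI.sum {ι : Type*} (s : Finset ι) (f : ι → MvPolynomial (Fin n) K)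
    (h : ∀ i ∈ s, InI K n d (f i)) : InI K n d (∑ i ∈ s, f i) := by
  classical
  induction s using Finset.induction_on with
  | empty => simpa using InI.zero
  | insert a s ha ih =>
    rw [Finset.sum_insert ha]
    exact (h a (Finset.mem_insert_self _ _)).add
      (ih fun i hi => h i (Finset.mem_insert_of_mem hi))

theorem InI.ehat {k : ℕ} (hk : 1 ≤ k) (hkn : k ≤ n) : InI K n d (ehat K n d k) := by
  classical
  refine ⟨fun i => if i = k then 1 else 0, fun i => ?_, ?_⟩
  · dsimp only
    split_ifs
    · exact one_mem _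
    · exact zero_mem _
  · simp [hk, hkn]

theorem mem_hatIdeal_iff (b : B K n) : b ∈ hatIdeal K n d ↔ InI K n d b.1 := by
  constructor
  · intro hb
    refine Submodule.span_induction (p := fun x _ => InI K n d x.1) ?_ ?_ ?_ ?_ hb
    · rintro x ⟨k, hk, hkn, hx⟩
      rw [hx]; exact InI.ehat hk hkn
    · exact InI.zero
    · intro x y _ _ hx hy
      exact hx.add hy
    · intro a x _ hx
      exact hx.mul a.2
  · rintro ⟨c, hc, hb⟩
    have : b = ∑ k ∈ Finset.Icc 1 n, (⟨c k, hc k⟩ : B K n) * ⟨ehat K n d k, ehat_mem_B k⟩ := by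
      apply Subtype.ext
      rw [hb]
      simp
    rw [this]
    refine Ideal.sum_mem _ fun k hk => Ideal.mul_mem_left _ _ (Ideal.subset_span ?_)
    exact ⟨k, (Finset.mem_Icc.1 hk).1, (Finset.mem_Icc.1 hk).2, rfl⟩

/-- Homogeneous components of a product with a homogeneous polynomial. -/
theorem comp_mul {σ : Type*} {f g : MvPolynomial σ K} {D : ℕ} (hg : g.IsHomogeneous D) (m : ℕ) :
    homogeneousComponent m (f * g) =
      if D ≤ m then homogeneousComponent (m - D) f * g else 0 := by
  classical
  have key : ∀ i, homogeneousComponent m (homogeneousComponent i f * g) =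
      if m = i + D then homogeneousComponent i f * g else 0 := fun i =>
    homogeneousComponent_of_mem ((homogeneousComponent_isHomogeneous i f).mul hg)
  have h1 : homogeneousComponent m (f * g) =
      ∑ i ∈ Finset.range (f.totalDegree + 1),
        if m = i + D then homogeneousComponent i f * g else 0 := by
    conv_lhs => rw [← sum_homogeneousComponent f, Finset.sum_mul, map_sum]
    exact Finset.sum_congr rfl fun i _ => key i
  rw [h1]
  split_ifs with h
  · by_cases h3 : m - D ∈ Finset.range (f.totalDegree + 1)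
    · rw [Finset.sum_eq_single (m - D)]
      · rw [if_pos (by omega)]
      · intro b _ hb
        rw [if_neg (by omega)]
      · intro h4; exact absurd h3 h4
    · have h5 : f.totalDegree < m - D := by
        rw [Finset.mem_range] at h3; omega
      rw [homogeneousComponent_eq_zero (m - D) f h5, zero_mul]
      refine Finset.sum_eq_zero fun i hi => ?_
      rw [if_neg]
      rintro rfl
      rw [Finset.mem_range] at hi
      omega
  · refine Finset.sum_eq_zero fun i _ => ?_
    rw [if_neg (by omega)]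

theorem InI.comp {f : MvPolynomial (Fin n) K} (hf : InI K n d f) (m : ℕ) :
    InI K n d (homogeneousComponent m f) := by
  obtain ⟨c, hc, rfl⟩ := hf
  refine ⟨fun k => if d * k ≤ m then homogeneousComponent (m - d * k) (c k) else 0, fun k => ?_, ?_⟩
  · dsimp only
    split_ifs
    · exact comp_mem_B (hc k) _
    · exact zero_mem _
  · rw [map_sum]
    refine Finset.sum_congr rfl fun k _ => ?_
    rw [comp_mul (ehat_homog k)]
    by_cases h : d * k ≤ m
    · simp only [if_pos h]
    · simp only [if_neg h, zero_mul]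

end Basic

end Pool.Agent.MP_7753cf
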