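import Pool.Agent.Lib.MP_7753cf_ag_h64.EvenOddMain

/-!
# MP_7753cf_ag: `A(n,d)` fails the strong Lefschetz property for `n` even, `d ≥ 3` odd (end)
-/

set_option autoImplicit false

open MvPolynomial

namespace Pool.Agent.MP_7753cf

variable {K : Type*} [Field K] {n r d : ℕ}

theorem F_add (e : Fin n ≃ Fin r × Fin 2) (f g : MvPolynomial (Fin n) K) :
    F K d e (f + g) = F K d e f + F K d e g := by
  rw [F, F, F, map_add, add_mul, coeff_add]

theorem F_sub (e : Fin n ≃ Fin r × Fin 2) (f g : MvPolynomial (Fin n) K) :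
    F K d e (f - g) = F K d e f - F K d e g := by
  rw [F, F, F, map_sub, sub_mul, coeff_sub]

theorem F_sum {ι : Type*} (e : Fin n ≃ Fin r × Fin 2) (s : Finset ι)
    (f : ι → MvPolynomial (Fin n) K) :
    F K d e (∑ i ∈ s, f i) = ∑ i ∈ s, F K d e (f i) := by
  simp only [F, map_sum, Finset.sum_mul, coeff_sum]

theorem vander_expand :
    (Matrix.vandermonde (fun k => ((X k : MvPolynomial (Fin r) K) ^ d) ^ 2)).det =
      ∑ σ : Equiv.Perm (Fin r), ((Equiv.Perm.sign σ : ℤ) : MvPolynomial (Fin r) K) *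
        monomial (Finsupp.equivFunOnFinite.symm (fun i => 2 * d * ((σ.symm i : Fin r) : ℕ))) 1 := by
  rw [Matrix.det_apply]
  refine Finset.sum_congr rfl fun σ _ => ?_
  have h1 : ∏ i, Matrix.vandermonde (fun k => ((X k : MvPolynomial (Fin r) K) ^ d) ^ 2) (σ i) i =
      monomial (Finsupp.equivFunOnFinite.symm (fun i => 2 * d * ((σ.symm i : Fin r) : ℕ))) 1 := by
    rw [← monoProd, ← Equiv.prod_comp σ (fun i => (X i : MvPolynomial (Fin r) K) ^
      (2 * d * ((σ.symm i : Fin r) : ℕ)))]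
    refine Finset.prod_congr rfl fun i _ => ?_
    rw [Matrix.vandermonde_apply, Equiv.symm_apply_apply, ← pow_mul, ← pow_mul]
    congr 1
    ring
  rw [h1, Units.smul_def, zsmul_eq_mul]

theorem top_coeff [CharZero K] (hd : 1 ≤ d) (q : ℕ) (hq : d = 2 * q + 1) :
    coeff (beta r d) ((∏ i : Fin r, (X i : MvPolynomial (Fin r) K) ^ (4 * q)) *
      (Matrix.vandermonde (fun k => ((X k : MvPolynomial (Fin r) K) ^ d) ^ 2)).det) = 1 := by
  classical
  rw [vander_expand, Finset.mul_sum, coeff_sum, Finset.sum_eq_single 1]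
  · rw [monoProd, Equiv.Perm.sign_one, Units.val_one, Int.cast_one, one_mul, monomial_mul,
      mul_one, coeff_monomial, if_pos]
    ext i
    simp only [beta, Finsupp.add_apply, Finsupp.equivFunOnFinite_symm_apply_apply]
    have : (Equiv.symm (1 : Equiv.Perm (Fin r))) i = i := rfl
    rw [this]
    omega
  · intro σ _ hσ
    rw [monoProd, mul_left_comm, monomial_mul, mul_one]
    have h2 : (((Equiv.Perm.sign σ : ℤ) : MvPolynomial (Fin r) K)) =
        C ((Equiv.Perm.sign σ : ℤ) : K) := by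
      simp
    rw [h2, coeff_C_mul, coeff_monomial, if_neg, mul_zero]
    intro h
    apply hσ
    ext i
    have h3 := congrArg (fun f => f (σ i)) h
    simp only [beta, Finsupp.add_apply, Finsupp.equivFunOnFinite_symm_apply_apply,
      Equiv.symm_apply_apply] at h3
    have h4 : 2 * d * (i : ℕ) = 2 * d * ((σ i : Fin r) : ℕ) := by omega
    have h5 := Nat.eq_of_mul_eq_mul_left (by omega : 0 < 2 * d) h4
    simpa using h5.symm
  · intro h; exact absurd (Finset.mem_univ _) h

theorem F_top [CharZero K] (hn : n = 2 * r) {q : ℕ} (hq : d = 2 * q + 1)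
    (e : Fin n ≃ Fin r × Fin 2) (M : Matrix (Fin r) (Fin r) (B K n))
    (hM : ∀ a : Fin r, ehat K n d (2 * a + 1) =
      ∑ b : Fin r, (M a b).1 * esymm (Fin n) K (2 * b + 1)) :
    F K d e (M.det.1 * esymm (Fin n) K n ^ q) ≠ 0 := by
  have hd : Odd d := ⟨q, hq⟩
  have h1 : psi K e (M.det.1 * esymm (Fin n) K n ^ q) * V K r =
      C (((-1) ^ r) ^ q * (d : K) ^ r) *
        ((∏ i : Fin r, (X i : MvPolynomial (Fin r) K) ^ (4 * q)) *
      (Matrix.vandermonde (fun k => ((X k : MvPolynomial (Fin r) K) ^ d) ^ 2)).det) := by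
    rw [map_mul, map_pow, psi_top hn e]
    have h2 := psi_det hn hd e M hM
    have h3 : psi K e M.det.1 * V K r = _ := h2
    have h4 : ∏ i : Fin r, ((d : MvPolynomial (Fin r) K) * X i ^ (d - 1)) =
        (d : MvPolynomial (Fin r) K) ^ r * ∏ i : Fin r, (X i : MvPolynomial (Fin r) K) ^ (2 * q) := by
      rw [Finset.prod_mul_distrib, Finset.prod_const, Finset.card_univ, Fintype.card_fin, hq,
        Nat.add_sub_cancel]
    have h5 : (∏ i : Fin r, (X i : MvPolynomial (Fin r) K) ^ (4 * q)) =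
        (∏ i : Fin r, (X i : MvPolynomial (Fin r) K) ^ 2) ^ q *
          ∏ i : Fin r, (X i : MvPolynomial (Fin r) K) ^ (2 * q) := by
      rw [← Finset.prod_pow, ← Finset.prod_mul_distrib]
      refine Finset.prod_congr rfl fun i _ => ?_
      rw [← pow_mul, ← pow_add]
      congr 1
      ring
    have h6 : psi K e M.det.1 * ((-1) ^ r * ∏ i : Fin r, (X i : MvPolynomial (Fin r) K) ^ 2) ^ q *
        V K r = ((-1) ^ r * ∏ i : Fin r, (X i : MvPolynomial (Fin r) K) ^ 2) ^ q *
          (psi K e M.det.1 * V K r) := by ring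
    rw [h6, h3, h4, h5]
    simp only [map_mul, map_pow, map_neg, map_one, map_natCast]
    ring
  rw [F, h1, coeff_C_mul, top_coeff (by omega) q hq, mul_one]
  refine mul_ne_zero (pow_ne_zero _ (pow_ne_zero _ (by norm_num))) (pow_ne_zero _ ?_)
  exact_mod_cast (by omega : d ≠ 0)

theorem exists_M [CharZero K] (hn : n = 2 * r) (hd : Odd d) :
    ∃ M : Matrix (Fin r) (Fin r) (B K n), ∀ a : Fin r, ehat K n d (2 * a + 1) =
      ∑ b : Fin r, (M a b).1 * esymm (Fin n) K (2 * b + 1) := by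
  have h : ∀ a : Fin r, InJ K n r (ehat K n d (2 * a + 1)) := fun a =>
    odd_InJ hn (ehat_mem_B _) (k := d * (2 * a + 1)) (hd.mul ⟨a, rfl⟩) (ehat_homog _)
  choose c hc hcs using h
  exact ⟨fun a b => ⟨c a b, hc a b⟩, hcs⟩

theorem det_kill (M : Matrix (Fin r) (Fin r) (B K n)) (hn : n = 2 * r)
    (hM : ∀ a : Fin r, ehat K n d (2 * a + 1) =
      ∑ b : Fin r, (M a b).1 * esymm (Fin n) K (2 * b + 1)) (b : Fin r) :
    InI K n d (M.det.1 * esymm (Fin n) K (2 * b + 1)) := by
  set x : Fin r → B K n := fun b => ⟨esymm (Fin n) K (2 * b + 1), esymm_mem_B _⟩ with hx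
  set y : Fin r → B K n := fun a => ⟨ehat K n d (2 * a + 1), ehat_mem_B _⟩ with hy
  have h1 : M.mulVec x = y := by
    ext1 a
    apply Subtype.ext
    rw [Matrix.mulVec, dotProduct]
    simp only [hy, hM a, hx]
    simp
  have h2 : M.det • x = M.adjugate.mulVec y := by
    rw [← h1, Matrix.mulVec_mulVec, Matrix.adjugate_mul, Matrix.smul_mulVec, Matrix.one_mulVec]
  have h3 := congrFun h2 b
  rw [Matrix.mulVec, dotProduct, Pi.smul_apply, smul_eq_mul] at h3
  have h4 : (M.det * x b) ∈ hatIdeal K n d := by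
    rw [h3]
    refine Ideal.sum_mem _ fun a _ => Ideal.mul_mem_left _ _ (Ideal.subset_span ?_)
    exact ⟨2 * a + 1, by omega, by have := a.2; omega, rfl⟩
  exact (mem_hatIdeal_iff _).1 h4

theorem not_SLP [CharZero K] (hn : n = 2 * r) (hr : 1 ≤ r) (hd : Odd d) (hd3 : 3 ≤ d) :
    ¬ SLP K n d := by
  classical
  rintro ⟨ℓ, ⟨b1, hb1, rfl⟩, hSLP⟩
  obtain ⟨q, hq⟩ := hd
  have hd : Odd d := ⟨q, hq⟩
  have hcard : Fintype.card (Fin n) = Fintype.card (Fin r × Fin 2) := by
    simp [hn, mul_comm]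
  set e : Fin n ≃ Fin r × Fin 2 := Fintype.equivOfCardEq hcard
  obtain ⟨M, hM⟩ := exists_M (K := K) hn hd
  have hF := F_top hn hq e M hM
  set En : MvPolynomial (Fin n) K := esymm (Fin n) K n ^ q with hEn
  have hEnB : En ∈ B K n := pow_mem (esymm_mem_B n) q
  have hEnh : En.IsHomogeneous (n * q) := (esymm_homog n).pow q
  -- choose a component
  have hsum : F K d e (M.det.1 * En) =
      ∑ i ∈ Finset.range (M.det.1.totalDegree + 1),
        F K d e (homogeneousComponent i M.det.1 * En) := by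
    rw [← F_sum]
    conv_lhs => rw [← sum_homogeneousComponent M.det.1, Finset.sum_mul]
  rw [hsum] at hF
  obtain ⟨i0, -, hi0⟩ := Finset.exists_ne_zero_of_sum_ne_zero hF
  set w : MvPolynomial (Fin n) K := homogeneousComponent i0 M.det.1 with hw
  have hwB : w ∈ B K n := comp_mem_B M.det.2 i0
  have hwh : w.IsHomogeneous i0 := homogeneousComponent_isHomogeneous _ _
  have hkill : ∀ b : Fin r, InI K n d (w * esymm (Fin n) K (2 * b + 1)) := by
    intro b
    have h1 := (det_kill M hn hM b).comp (i0 + (2 * b + 1))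
    rw [comp_mul (esymm_homog _), if_pos (by omega), Nat.add_sub_cancel] at h1
    exact h1
  have hkillJ : ∀ f, InJ K n r f → InI K n d (w * f) := by
    rintro f ⟨c, hc, rfl⟩
    rw [Finset.mul_sum]
    refine InI.sum _ _ fun b _ => ?_
    have := (hkill b).mul (hc b)
    convert this using 1
    ring
  have hb1J : InJ K n r b1.1 := odd_InJ hn b1.2 odd_one hb1
  set ℓ := Ideal.Quotient.mk (hatIdeal K n d) b1 with hℓ
  set W : B K n := ⟨w, hwB⟩ with hW
  set Eq : B K n := ⟨En, hEnB⟩ with hEq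
  have hW0 : Ideal.Quotient.mk (hatIdeal K n d) W ≠ 0 := by
    intro h
    rw [Ideal.Quotient.eq_zero_iff_mem, mem_hatIdeal_iff] at h
    apply hi0
    have := h.mul hEnB
    rw [mul_comm] at this
    exact F_InI hn hd e this
  have hlW : ℓ * Ideal.Quotient.mk (hatIdeal K n d) W = 0 := by
    rw [hℓ, ← map_mul, Ideal.Quotient.eq_zero_iff_mem, mem_hatIdeal_iff]
    have := hkillJ _ hb1J
    rw [mul_comm] at this
    exact this
  have hk : 1 ≤ n * q := by
    have h1 : 1 ≤ n := by omega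
    have h2 : 1 ≤ q := by omega
    exact Nat.mul_pos h1 h2
  rcases hSLP i0 (n * q) hk with hinj | hsurj
  · apply hW0
    refine hinj ⟨W, hwh, rfl⟩ ⟨0, isHomogeneous_zero _ _ _, map_zero _⟩ ?_
    dsimp only
    obtain ⟨k, hk2⟩ : ∃ k, n * q = k + 1 := ⟨n * q - 1, by omega⟩
    rw [mul_zero, hk2, pow_succ, mul_assoc, hlW, mul_zero]
  · obtain ⟨a, ⟨b', -, rfl⟩, ha⟩ := hsurj (a := Ideal.Quotient.mk (hatIdeal K n d) (W * Eq))
      ⟨W * Eq, hwh.mul hEnh, rfl⟩
    dsimp only at ha
    rw [hℓ, ← map_pow, ← map_mul, Ideal.Quotient.eq, mem_hatIdeal_iff] at ha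
    have h1 := F_InI hn hd e ha
    have h2 : F K d e ((b1 ^ (n * q) * b' - W * Eq : B K n) : MvPolynomial (Fin n) K) =
        F K d e (b1.1 ^ (n * q) * b'.1) - F K d e (w * En) := by
      rw [← F_sub]
      rfl
    rw [h2] at h1
    have h3 : F K d e (b1.1 ^ (n * q) * b'.1) = 0 := by
      rw [F, map_mul, map_pow, psi_InJ hn e hb1J, zero_pow (by omega), zero_mul, zero_mul,
        coeff_zero]
    rw [h3, zero_sub, neg_eq_zero] at h1
    exact hi0 h1

end Pool.Agent.MP_7753cf
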