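import Pool.Agent.Lib.MP_7753cf_ag_h64.Parity

/-!
# MP_7753cf_ag: `A(n,d)` fails the strong Lefschetz property for `n` even, `d ≥ 3` odd
-/

set_option autoImplicit false

open MvPolynomial

namespace Pool.Agent.MP_7753cf

section Psi

variable {K : Type*} [Field K] {n r d : ℕ}

/-- The specialisation `(t_1,-t_1,…,t_r,-t_r)`. -/
noncomputable def psi (K : Type*) [Field K] {n r : ℕ} (e : Fin n ≃ Fin r × Fin 2) :
    MvPolynomial (Fin n) K →ₐ[K] MvPolynomial (Fin r) K :=
  aeval (pt e (fun i => (X i : MvPolynomial (Fin r) K)) (fun i => X i))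

theorem psi_InJ (hn : n = 2 * r) (e : Fin n ≃ Fin r × Fin 2) {f : MvPolynomial (Fin n) K}
    (hf : InJ K n r f) : psi K e f = 0 := by
  obtain ⟨c, -, rfl⟩ := hf
  rw [map_sum]
  refine Finset.sum_eq_zero fun b _ => ?_
  rw [map_mul, psi, aeval_odd_zero hn, mul_zero]

theorem coeff_C_prod {ι : Type*} {T : Type*} [CommRing T] (s : Finset ι) (v : ι → T) (m : ℕ) :
    (∏ k ∈ s, (Polynomial.X - Polynomial.C (Polynomial.C (v k)))).coeff m =
      Polynomial.C ((∏ k ∈ s, (Polynomial.X - Polynomial.C (v k))).coeff m) := by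
  have : (∏ k ∈ s, ((Polynomial.X : Polynomial (Polynomial T)) -
      Polynomial.C (Polynomial.C (v k)))) =
      Polynomial.map Polynomial.C (∏ k ∈ s, (Polynomial.X - Polynomial.C (v k))) := by
    rw [Polynomial.map_prod]
    simp
  rw [this, Polynomial.coeff_map]

/-- The linear relation between the two matrices of coefficients. -/
theorem relation (hn : n = 2 * r) (hd : Odd d) (e : Fin n ≃ Fin r × Fin 2)
    (M : Fin r → MvPolynomial (Fin n) K) (a : Fin r)
    (hM : ehat K n d (2 * a + 1) = ∑ b, M b * esymm (Fin n) K (2 * b + 1)) (i : Fin r) :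
    (d : MvPolynomial (Fin r) K) * X i ^ (d - 1) *
      Dmat (fun k => ((X k : MvPolynomial (Fin r) K) ^ d) ^ 2) i a =
    ∑ b, psi K e (M b) * Dmat (fun k => (X k : MvPolynomial (Fin r) K) ^ 2) i b := by
  classical
  set u : Fin r → Polynomial (MvPolynomial (Fin r) K) := fun k => Polynomial.C (X k) with hu
  set s : Fin r → Polynomial (MvPolynomial (Fin r) K) := Function.update u i Polynomial.X with hs
  set φ : MvPolynomial (Fin n) K →ₐ[K] Polynomial (MvPolynomial (Fin r) K) :=
    aeval (pt e s u) with hφ
  have hsi : s i = Polynomial.X := by simp [hs]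
  have hsk : ∀ k, k ≠ i → s k = u k := fun k hk => by simp [hs, hk]
  have hev : ∀ f, Polynomial.eval (X i) (φ f) = psi K e f := by
    intro f
    have : ((Polynomial.aeval (X i : MvPolynomial (Fin r) K)).restrictScalars K).comp φ =
        psi K e := by
      ext l : 1
      simp only [hφ, psi, AlgHom.comp_apply, aeval_X, pt]
      split_ifs with h
      · by_cases h2 : (e l).1 = i
        · rw [h2, hsi]; simp
        · rw [hsk _ h2]; simp [hu]
      · simp [hu]
    have h2 := congrArg (fun g => g f) this
    simp only [AlgHom.comp_apply] at h2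
    rw [← h2]
    simp [Polynomial.aeval_def, Polynomial.eval₂_eq_eval_map]
  have h1 : φ (ehat K n d (2 * a + 1)) =
      (Polynomial.X ^ d - Polynomial.C (X i) ^ d) *
        Polynomial.C (Dmat (fun k => ((X k : MvPolynomial (Fin r) K) ^ d) ^ 2) i a) := by
    rw [hφ, aeval_ehat hd e s u, aeval_odd hn e (fun i => s i ^ d) (fun i => u i ^ d) i
      (fun k hk => by simp only [hsk k hk]) a, hsi]
    congr 1
    have : ∀ k, (u k ^ d) ^ 2 = Polynomial.C (((X k : MvPolynomial (Fin r) K) ^ d) ^ 2) := by
      intro k; simp [hu]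
    simp only [this]
    rw [coeff_C_prod]
    rfl
  have h2 : ∀ b : Fin r, φ (esymm (Fin n) K (2 * b + 1)) =
      (Polynomial.X - Polynomial.C (X i)) *
        Polynomial.C (Dmat (fun k => (X k : MvPolynomial (Fin r) K) ^ 2) i b) := by
    intro b
    rw [hφ, aeval_odd hn e s u i hsk b, hsi]
    congr 1
    have : ∀ k, u k ^ 2 = Polynomial.C ((X k : MvPolynomial (Fin r) K) ^ 2) := by
      intro k; simp [hu]
    simp only [this]
    rw [coeff_C_prod]
    rfl
  have h3 := congrArg (fun f => Polynomial.eval (X i) (Polynomial.derivative (φ f))) hM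
  simp only [map_sum, map_mul] at h3
  rw [h1] at h3
  simp only [h2] at h3
  simp only [Polynomial.derivative_mul, Polynomial.derivative_sub, Polynomial.derivative_X_pow,
    ← Polynomial.C_pow, Polynomial.derivative_C, sub_zero, mul_zero, add_zero,
    Polynomial.eval_mul, Polynomial.eval_C, Polynomial.eval_pow, Polynomial.eval_X,
    Polynomial.eval_finsetSum, Polynomial.eval_add, Polynomial.eval_sub, sub_self, zero_mul,
    Polynomial.derivative_X, one_mul, zero_add, hev] at h3
  rw [h3]

theorem psi_det (hn : n = 2 * r) (hd : Odd d) (e : Fin n ≃ Fin r × Fin 2)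
    (M : Matrix (Fin r) (Fin r) (B K n))
    (hM : ∀ a : Fin r, ehat K n d (2 * a + 1) =
      ∑ b : Fin r, (M a b).1 * esymm (Fin n) K (2 * b + 1)) :
    psi K e M.det.1 * (Matrix.vandermonde (fun k => (X k : MvPolynomial (Fin r) K) ^ 2)).det =
      (∏ i : Fin r, ((d : MvPolynomial (Fin r) K) * X i ^ (d - 1))) *
        (Matrix.vandermonde (fun k => ((X k : MvPolynomial (Fin r) K) ^ d) ^ 2)).det := by
  set N : Matrix (Fin r) (Fin r) (MvPolynomial (Fin r) K) :=
    fun a b => psi K e (M a b).1 with hN
  have hdetN : psi K e M.det.1 = N.det := by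
    have h := RingHom.map_det ((psi K e).comp (B K n).val).toRingHom M
    exact h
  have hmat : Matrix.diagonal (fun i : Fin r => (d : MvPolynomial (Fin r) K) * X i ^ (d - 1)) *
      Dmat (fun k => ((X k : MvPolynomial (Fin r) K) ^ d) ^ 2) =
      Dmat (fun k => (X k : MvPolynomial (Fin r) K) ^ 2) * N.transpose := by
    ext1 i a
    rw [Matrix.diagonal_mul, relation hn hd e (fun b => (M a b).1) a (hM a) i, Matrix.mul_apply]
    refine Finset.sum_congr rfl fun b _ => ?_
    rw [Matrix.transpose_apply, hN, mul_comm]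
  have h := congrArg Matrix.det hmat
  rw [Matrix.det_mul, Matrix.det_mul, Matrix.det_diagonal, Matrix.det_transpose, det_Dmat,
    det_Dmat] at h
  rw [hdetN, h, mul_comm]

theorem psi_top (hn : n = 2 * r) (e : Fin n ≃ Fin r × Fin 2) :
    psi K e (esymm (Fin n) K n) = (-1) ^ r * ∏ i : Fin r, (X i : MvPolynomial (Fin r) K) ^ 2 := by
  have h := aeval_even (K := K) hn e (fun i => (X i : MvPolynomial (Fin r) K)) (le_refl r)
  rw [← hn] at h
  rw [psi, h, Nat.sub_self, Polynomial.coeff_zero_eq_eval_zero, Polynomial.eval_prod]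
  simp only [Polynomial.eval_sub, Polynomial.eval_X, Polynomial.eval_C, zero_sub]
  rw [Finset.prod_neg]
  simp

end Psi

section Anti

variable {K : Type*} [Field K] {n r d : ℕ}

/-- Vandermonde determinant in the squares of the variables. -/
noncomputable def V (K : Type*) [Field K] (r : ℕ) : MvPolynomial (Fin r) K :=
  (Matrix.vandermonde (fun k => (X k : MvPolynomial (Fin r) K) ^ 2)).det

theorem rename_V (π : Equiv.Perm (Fin r)) :
    rename π (V K r) = ((Equiv.Perm.sign π : ℤ) : MvPolynomial (Fin r) K) * V K r := by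
  have h : rename π (V K r) =
      ((Matrix.vandermonde (fun k => (X k : MvPolynomial (Fin r) K) ^ 2)).submatrix π id).det := by
    rw [V, AlgHom.map_det]
    congr 1
    ext1 i j
    simp [Matrix.vandermonde]
  rw [h, Matrix.det_permute]
  rfl

theorem rename_psi (hn : n = 2 * r) (e : Fin n ≃ Fin r × Fin 2) (π : Equiv.Perm (Fin r))
    {f : MvPolynomial (Fin n) K} (hf : f ∈ B K n) :
    rename π (psi K e f) = psi K e f := by
  refine Algebra.adjoin_induction (p := fun f _ => rename π (psi K e f) = psi K e f)
    ?_ ?_ ?_ ?_ hf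
  · rintro _ ⟨k, hk, hkn, rfl⟩
    rcases Nat.even_or_odd k with he | ho
    · obtain ⟨m, rfl⟩ := he.exists_two_nsmul
      have hmr : m ≤ r := by simp at hkn; omega
      rw [smul_eq_mul]
      have h1 : rename π (psi K e (esymm (Fin n) K (2 * m))) =
          aeval (pt e (fun i => (X (π i) : MvPolynomial (Fin r) K)) (fun i => X (π i)))
            (esymm (Fin n) K (2 * m)) := by
        have : (rename π : MvPolynomial (Fin r) K →ₐ[K] _).comp (psi K e) =
            aeval (pt e (fun i => (X (π i) : MvPolynomial (Fin r) K)) (fun i => X (π i))) := by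
          ext l : 1
          simp only [psi, AlgHom.comp_apply, aeval_X, pt]
          split_ifs <;> simp
        rw [← this]; rfl
      rw [h1, psi, aeval_even hn e _ hmr, aeval_even hn e _ hmr]
      congr 1
      exact Equiv.prod_comp π (fun i => (Polynomial.X -
        Polynomial.C ((X i : MvPolynomial (Fin r) K) ^ 2)))
    · obtain ⟨b, rfl⟩ := ho
      have hb : b < r := by omega
      rw [psi_InJ hn e (InJ.esymm (K := K) (n := n) ⟨b, hb⟩), map_zero]
  · intro c
    simp
  · intro x y _ _ hx hy
    rw [map_add, map_add, hx, hy]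
  · intro x y _ _ hx hy
    rw [map_mul, map_mul, hx, hy]

theorem coeff_anti [CharZero K] {g : MvPolynomial (Fin r) K} {i j : Fin r}
    (hg : rename (Equiv.swap i j) g = -g) (γ : Fin r →₀ ℕ) (hγ : γ i = γ j) :
    coeff γ g = 0 := by
  have h1 : γ.mapDomain (Equiv.swap i j) = γ := by
    ext k
    have := Finsupp.mapDomain_apply (Equiv.swap i j).injective γ (Equiv.swap i j k)
    rw [Equiv.swap_apply_self] at this
    rw [this]
    by_cases hki : k = i
    · subst hki; rw [Equiv.swap_apply_left, hγ]
    · by_cases hkj : k = j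
      · subst hkj; rw [Equiv.swap_apply_right, hγ]
      · rw [Equiv.swap_apply_of_ne_of_ne hki hkj]
  have h2 := coeff_rename_mapDomain (Equiv.swap i j) (Equiv.swap i j).injective g γ
  rw [h1, hg, coeff_neg] at h2
  have h3 : (2 : K) * coeff γ g = 0 := by linear_combination -h2
  exact (mul_eq_zero.1 h3).resolve_left two_ne_zero

/-- The exponent vector `2(d-1) + 2di`. -/
noncomputable def beta (r d : ℕ) : Fin r →₀ ℕ :=
  Finsupp.equivFunOnFinite.symm (fun i => 2 * (d - 1) + 2 * d * (i : ℕ))

theorem coeff_shift [CharZero K] (hd : 1 ≤ d) {g : MvPolynomial (Fin r) K}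
    (hg : ∀ i j : Fin r, i ≠ j → rename (Equiv.swap i j) g = -g)
    (t : Finset (Fin r)) (ht : t.Nonempty) (c : K) :
    coeff (beta r d) (monomial
      (Finsupp.equivFunOnFinite.symm (fun i => if i ∈ t then 2 * d else 0)) c * g) = 0 := by
  rw [coeff_monomial_mul']
  split_ifs with h
  · set i := t.min' ht with hi
    have hit : i ∈ t := t.min'_mem ht
    by_cases hi0 : (i : ℕ) = 0
    · exfalso
      have := h i
      simp only [beta, Finsupp.equivFunOnFinite_symm_apply_apply, if_pos hit, hi0] at this
      omega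
    · have hj : (i : ℕ) - 1 < r := by have := i.2; omega
      set j : Fin r := ⟨i - 1, hj⟩ with hjdef
      have hji : j < i := by
        rw [Fin.lt_def]; simp only [hjdef]; omega
      have hjt : j ∉ t := fun hjt => absurd (t.min'_le j hjt) (not_le.2 hji)
      rw [coeff_anti (hg i j hji.ne') _ ?_, mul_zero]
      rw [Finsupp.tsub_apply, Finsupp.tsub_apply]
      simp only [beta, Finsupp.equivFunOnFinite_symm_apply_apply, if_pos hit, if_neg hjt]
      have hjv : (i : ℕ) = j + 1 := by simp only [hjdef]; omega
      rw [hjv]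
      have : 2 * d * ((j : ℕ) + 1) = 2 * d * j + 2 * d := by ring
      omega
  · rfl

theorem monoProd (f : Fin r → ℕ) :
    ∏ i, (X i : MvPolynomial (Fin r) K) ^ f i =
      monomial (Finsupp.equivFunOnFinite.symm f) 1 := by
  rw [monomial_eq, C_1, one_mul, Finsupp.prod_fintype _ _ (fun i => pow_zero _)]
  simp

/-- The functional used to separate elements of `B` from the ideals. -/
noncomputable def F (K : Type*) [Field K] {n r : ℕ} (d : ℕ) (e : Fin n ≃ Fin r × Fin 2)
    (f : MvPolynomial (Fin n) K) : K :=
  coeff (beta r d) (psi K e f * V K r)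

theorem F_InI [CharZero K] (hn : n = 2 * r) (hd : Odd d) (e : Fin n ≃ Fin r × Fin 2)
    {f : MvPolynomial (Fin n) K} (hf : InI K n d f) : F K d e f = 0 := by
  classical
  obtain ⟨c, hc, rfl⟩ := hf
  rw [F, map_sum, Finset.sum_mul, coeff_sum]
  refine Finset.sum_eq_zero fun k hk => ?_
  rw [Finset.mem_Icc] at hk
  rw [map_mul]
  rcases Nat.even_or_odd k with he | ho
  · obtain ⟨m, rfl⟩ := he.exists_two_nsmul
    rw [smul_eq_mul] at hk ⊢
    have hmr : m ≤ r := by omega
    have h1 : psi K e (ehat K n d (2 * m)) =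
        ∑ t ∈ Finset.powersetCard m Finset.univ, ∏ i ∈ t,
          (-((X i : MvPolynomial (Fin r) K) ^ d) ^ 2) := by
      rw [psi, aeval_ehat hd, aeval_even hn e _ hmr]
      have := Finset.prod_X_add_C_coeff (Finset.univ : Finset (Fin r))
        (fun i => -((X i : MvPolynomial (Fin r) K) ^ d) ^ 2) (k := r - m) (by simp)
      rw [Finset.card_univ, Fintype.card_fin, Nat.sub_sub_self hmr] at this
      rw [← this]
      congr 1
      refine Finset.prod_congr rfl fun i _ => ?_
      rw [Polynomial.C_neg, sub_eq_add_neg]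
    have hanti : ∀ i j : Fin r, i ≠ j →
        rename (Equiv.swap i j) (psi K e (c (2 * m)) * V K r) =
          -(psi K e (c (2 * m)) * V K r) := by
      intro i j hij
      rw [map_mul, rename_psi hn e _ (hc _), rename_V, Equiv.Perm.sign_swap hij]
      push_cast
      ring
    have h2 : psi K e (c (2 * m)) * psi K e (ehat K n d (2 * m)) * V K r =
        ∑ t ∈ Finset.powersetCard m Finset.univ,
          monomial (Finsupp.equivFunOnFinite.symm (fun i => if i ∈ t then 2 * d else 0))
            ((-1 : K) ^ m) * (psi K e (c (2 * m)) * V K r) := by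
      rw [h1, Finset.mul_sum, Finset.sum_mul]
      refine Finset.sum_congr rfl fun t ht => ?_
      have h3 : ∏ i ∈ t, (-((X i : MvPolynomial (Fin r) K) ^ d) ^ 2) =
          monomial (Finsupp.equivFunOnFinite.symm (fun i => if i ∈ t then 2 * d else 0))
            ((-1 : K) ^ m) := by
        have h4 := monoProd (K := K) (fun i : Fin r => if i ∈ t then 2 * d else 0)
        have h5 : (monomial (Finsupp.equivFunOnFinite.symm
            (fun i => if i ∈ t then 2 * d else 0))) ((-1 : K) ^ m) =
            C ((-1 : K) ^ m) * (monomial (Finsupp.equivFunOnFinite.symm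
            (fun i => if i ∈ t then 2 * d else 0))) (1 : K) := by
          rw [C_mul_monomial, mul_one]
        rw [h5, ← h4, Finset.prod_neg, (Finset.mem_powersetCard.1 ht).2]
        congr 1
        · simp
        · simp only [pow_ite, pow_zero, Finset.prod_ite_mem, Finset.univ_inter]
          refine Finset.prod_congr rfl fun i _ => ?_
          rw [← pow_mul, mul_comm]
      rw [h3]
      ring
    rw [h2, coeff_sum]
    refine Finset.sum_eq_zero fun t ht => ?_
    refine coeff_shift hd.pos hanti t ?_ _
    rw [← Finset.card_pos, (Finset.mem_powersetCard.1 ht).2]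
    omega
  · obtain ⟨b, rfl⟩ := ho
    have hb : b < r := by omega
    have h1 : psi K e (ehat K n d (2 * b + 1)) = 0 := by
      rw [psi, aeval_ehat hd]
      exact aeval_odd_zero hn e _ ⟨b, hb⟩
    rw [h1, mul_zero, zero_mul, coeff_zero]

end Anti

end Pool.Agent.MP_7753cf
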