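import Mathlib

/-!
# MP_7753cf_ag: a polynomial with few terms has few positive roots; power sums of `1 = x + y`
-/

set_option autoImplicit false

namespace Pool.Agent.MP_7753cf

open Polynomial

theorem signVariations_lt_card {P : ℝ[X]} (hP : P ≠ 0) : P.signVariations < P.support.card := by
  induction h : P.support.card using Nat.strong_induction_on generalizing P with
  | _ n ih =>
    have hc : P.eraseLead.support.card + 1 = P.support.card := card_support_eraseLead_add_one hP
    by_cases h0 : P.eraseLead = 0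
    · have h1 : P = monomial P.natDegree P.leadingCoeff := by
        have := P.eraseLead_add_monomial_natDegree_leadingCoeff
        rw [h0, zero_add] at this
        exact this.symm
      rw [h1, signVariations_monomial]
      omega
    · have h1 := ih P.eraseLead.support.card (by omega) h0 rfl
      have h2 := signVariations_le_eraseLead_succ (P := P)
      omega

theorem few_terms {P : ℝ[X]} (s : Finset ℝ) (hs : ∀ x ∈ s, 0 < x ∧ P.eval x = 0)
    (h : P.support.card ≤ s.card) : P = 0 := by
  by_contra hP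
  have h1 := signVariations_lt_card hP
  have h2 := roots_countP_pos_le_signVariations (P := P)
  have h3 : s.card ≤ P.roots.countP (0 < ·) := by
    classical
    rw [Multiset.countP_eq_card_filter]
    have : s ⊆ (P.roots.filter (0 < ·)).toFinset := by
      intro x hx
      rw [Multiset.mem_toFinset, Multiset.mem_filter, mem_roots hP]
      exact ⟨(hs x hx).2, (hs x hx).1⟩
    exact (Finset.card_le_card this).trans (Multiset.toFinset_card_le _)
  omega

/-- `P_k` with `x^k + y^k = P_k(xy)` when `x + y = 1`. -/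
noncomputable def Pk : ℕ → ℤ[X]
  | 0 => 2
  | 1 => 1
  | (k + 2) => Pk (k + 1) - X * Pk k

theorem Pk_eval {R : Type*} [CommRing R] (x y : R) (h : x + y = 1) (k : ℕ) :
    (Pk k).eval₂ (Int.castRingHom R) (x * y) = x ^ k + y ^ k := by
  induction k using Nat.strong_induction_on with
  | _ k ih =>
    match k with
    | 0 => simp [Pk]; norm_num
    | 1 => simp [Pk, h]
    | (k + 2) =>
      rw [Pk, eval₂_sub, eval₂_mul, eval₂_X, ih (k + 1) (by omega), ih k (by omega)]
      linear_combination (-(x ^ (k + 1) + y ^ (k + 1))) * h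

theorem Pk_cos (k : ℕ) (θ : ℝ) (h : Real.cos θ ≠ 0) :
    (Pk k).eval₂ (Int.castRingHom ℝ) (1 / (4 * Real.cos θ ^ 2)) * (2 * Real.cos θ) ^ k =
      2 * Real.cos (k * θ) := by
  induction k using Nat.strong_induction_on with
  | _ k ih =>
    match k with
    | 0 => simp [Pk]
    | 1 => simp [Pk]
    | (k + 2) =>
      have h1 := ih (k + 1) (by omega)
      have h0 := ih k (by omega)
      rw [Pk, eval₂_sub, eval₂_mul, eval₂_X]
      have h2 : Real.cos (((k + 2 : ℕ) : ℝ) * θ) =
          2 * Real.cos θ * Real.cos (((k + 1 : ℕ) : ℝ) * θ) - Real.cos ((k : ℝ) * θ) := by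
        have e1 : ((k + 2 : ℕ) : ℝ) * θ = ((k + 1 : ℕ) : ℝ) * θ + θ := by push_cast; ring
        have e2 : (k : ℝ) * θ = ((k + 1 : ℕ) : ℝ) * θ - θ := by push_cast; ring
        rw [e1, e2, Real.cos_add, Real.cos_sub]
        ring
      rw [h2]
      have h3 : (eval₂ (Int.castRingHom ℝ) (1 / (4 * Real.cos θ ^ 2)) (Pk (k + 1)) -
          1 / (4 * Real.cos θ ^ 2) * eval₂ (Int.castRingHom ℝ) (1 / (4 * Real.cos θ ^ 2)) (Pk k)) *
          (2 * Real.cos θ) ^ (k + 2) =
          (2 * Real.cos θ) * (eval₂ (Int.castRingHom ℝ) (1 / (4 * Real.cos θ ^ 2)) (Pk (k + 1)) *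
            (2 * Real.cos θ) ^ (k + 1)) -
          (eval₂ (Int.castRingHom ℝ) (1 / (4 * Real.cos θ ^ 2)) (Pk k) *
            (2 * Real.cos θ) ^ k) := by
        field_simp
        ring
      rw [h3, h1, h0]
      ring

/-- The polynomial `P_{2m}` has `m` distinct positive roots. -/
theorem Pk_roots (m : ℕ) : ∃ s : Finset ℝ, s.card = m ∧
    ∀ x ∈ s, 0 < x ∧ (Pk (2 * m)).eval₂ (Int.castRingHom ℝ) x = 0 := by
  classical
  rcases Nat.eq_zero_or_pos m with rfl | hm
  · exact ⟨∅, rfl, by simp⟩
  have hmr : (0 : ℝ) < m := by exact_mod_cast hm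
  set θ : ℕ → ℝ := fun a => (2 * a + 1) * Real.pi / (4 * m) with hθ
  have hθpos : ∀ a, 0 < θ a := fun a => by
    simp only [hθ]; positivity
  have hθlt : ∀ a, a < m → θ a < Real.pi / 2 := by
    intro a ha
    simp only [hθ]
    rw [div_lt_div_iff₀ (by positivity) (by norm_num)]
    have : (a : ℝ) + 1 ≤ m := by exact_mod_cast ha
    have hpi := Real.pi_pos
    nlinarith
  have hcos : ∀ a, a < m → 0 < Real.cos (θ a) := fun a ha =>
    Real.cos_pos_of_mem_Ioo ⟨by linarith [hθpos a, Real.pi_pos], hθlt a ha⟩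
  refine ⟨(Finset.range m).image (fun a => 1 / (4 * Real.cos (θ a) ^ 2)), ?_, ?_⟩
  · rw [Finset.card_image_of_injOn, Finset.card_range]
    intro a ha b hb hab
    simp only [Finset.coe_range, Set.mem_Iio] at ha hb
    dsimp only at hab
    have h1 : Real.cos (θ a) ^ 2 = Real.cos (θ b) ^ 2 := by
      have ha' := hcos a ha
      have hb' := hcos b hb
      field_simp at hab
      linarith
    have h2 : Real.cos (θ a) = Real.cos (θ b) :=
      (pow_left_inj₀ (hcos a ha).le (hcos b hb).le (by norm_num)).1 h1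
    have h3 : θ a = θ b := Real.injOn_cos
      ⟨(hθpos a).le, by linarith [hθlt a ha, Real.pi_pos]⟩
      ⟨(hθpos b).le, by linarith [hθlt b hb, Real.pi_pos]⟩ h2
    simp only [hθ] at h3
    have hpi := Real.pi_pos
    field_simp at h3
    have h4 : (a : ℝ) = b := by linarith
    exact_mod_cast h4
  · intro x hx
    rw [Finset.mem_image] at hx
    obtain ⟨a, ha, rfl⟩ := hx
    rw [Finset.mem_range] at ha
    have hc := hcos a ha
    refine ⟨by positivity, ?_⟩
    have h1 := Pk_cos (2 * m) (θ a) hc.ne'
    have h2 : Real.cos (((2 * m : ℕ) : ℝ) * θ a) = 0 := by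
      rw [Real.cos_eq_zero_iff]
      refine ⟨a, ?_⟩
      simp only [hθ]
      push_cast
      field_simp
      ring
    rw [h2, mul_zero] at h1
    exact (mul_eq_zero.1 h1).resolve_right (pow_ne_zero _ (by positivity))

/-- The transfer to an arbitrary field of characteristic zero. -/
theorem few_terms_field {K : Type*} [Field K] [CharZero K] (m : ℕ) (H A : K[X])
    (hH : H = A * (Pk (2 * m)).map (Int.castRingHom K)) (hc : H.support.card ≤ m) : H = 0 := by
  classical
  by_contra hne
  obtain ⟨i, hi⟩ : ∃ i, H.coeff i ≠ 0 := by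
    by_contra hcon
    push Not at hcon
    exact hne (Polynomial.ext fun i => by rw [hcon i, coeff_zero])
  -- a rational functional not vanishing at a coefficient
  obtain ⟨lam, hlam⟩ : ∃ lam : K →ₗ[ℚ] ℚ, lam (H.coeff i) ≠ 0 := by
    by_contra hcon
    push Not at hcon
    exact hi ((Module.forall_dual_apply_eq_zero_iff ℚ (H.coeff i)).1 hcon)
  -- coefficientwise application
  set T : K[X] → ℝ[X] := fun f => ∑ j ∈ f.support, monomial j ((lam (f.coeff j) : ℚ) : ℝ) with hT
  have hTc : ∀ f j, (T f).coeff j = ((lam (f.coeff j) : ℚ) : ℝ) := by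
    intro f j
    simp only [hT, finsetSum_coeff, coeff_monomial]
    rw [Finset.sum_ite_eq']
    split_ifs with h
    · rfl
    · rw [notMem_support_iff.1 h]; simp
  have hTH : T H = T A * (Pk (2 * m)).map (Int.castRingHom ℝ) := by
    ext j
    rw [hTc, hH, coeff_mul, coeff_mul, map_sum, Rat.cast_sum]
    refine Finset.sum_congr rfl fun x _ => ?_
    rw [hTc, coeff_map, coeff_map]
    have h1 : A.coeff x.1 * (Int.castRingHom K) ((Pk (2 * m)).coeff x.2) =
        ((Pk (2 * m)).coeff x.2 : ℚ) • A.coeff x.1 := by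
      rw [Rat.smul_def]
      simp [mul_comm]
    rw [h1, map_smul, smul_eq_mul]
    push_cast
    simp [mul_comm]
  obtain ⟨s, hs, hroot⟩ := Pk_roots m
  have hsup : (T H).support.card ≤ s.card := by
    rw [hs]
    refine le_trans (Finset.card_le_card ?_) hc
    intro j hj
    rw [mem_support_iff] at hj ⊢
    intro h0
    apply hj
    rw [hTc, h0]; simp
  have h0 := few_terms s (P := T H) (fun x hx => ⟨(hroot x hx).1, by
    rw [hTH, eval_mul, eval_map, (hroot x hx).2, mul_zero]⟩) hsup
  have h1 := hTc H i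
  rw [h0, coeff_zero] at h1
  exact hlam (by exact_mod_cast h1.symm)

end Pool.Agent.MP_7753cf
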