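import Pool.Agent.Lib.MP_7753cf_ag_h64.Defs

/-!
# MP_7753cf_ag: parity, specialisations and a Vandermonde computation
-/

set_option autoImplicit false

open MvPolynomial

namespace Pool.Agent.MP_7753cf

section Parity

variable {K : Type*} [Field K] {n d : ℕ}

/-- The sign automorphism `x_i ↦ -x_i`. -/
noncomputable def nu (K : Type*) [Field K] (n : ℕ) :
    MvPolynomial (Fin n) K →ₐ[K] MvPolynomial (Fin n) K :=
  aeval (fun i : Fin n => -(X i : MvPolynomial (Fin n) K))

theorem nu_homog {f : MvPolynomial (Fin n) K} {k : ℕ} (hf : f.IsHomogeneous k) :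
    nu K n f = (-1) ^ k * f := by
  conv_lhs => rw [f.as_sum]
  conv_rhs => rw [f.as_sum]
  rw [map_sum, Finset.mul_sum]
  refine Finset.sum_congr rfl fun s hs => ?_
  rw [nu, aeval_monomial, monomial_eq]
  have h1 : s.degree = k := by
    have := hf (mem_support_iff.1 hs)
    rw [Finsupp.degree_eq_weight_one]
    exact this
  have h2 : (s.prod fun i e => (-(X i : MvPolynomial (Fin n) K)) ^ e) =
      (-1) ^ k * s.prod fun i e => (X i : MvPolynomial (Fin n) K) ^ e := by
    simp only [Finsupp.prod, neg_pow (X _ : MvPolynomial (Fin n) K)]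
    rw [Finset.prod_mul_distrib, Finset.prod_pow_eq_pow_sum, ← h1]
    rfl
  rw [h2, algebraMap_eq]
  ring

/-- `f` is a combination of `e_1,e_3,…,e_{2r-1}` with coefficients in `B`. -/
def InJ (K : Type*) [Field K] (n r : ℕ) (f : MvPolynomial (Fin n) K) : Prop :=
  ∃ c : Fin r → MvPolynomial (Fin n) K, (∀ b, c b ∈ B K n) ∧
    f = ∑ b, c b * esymm (Fin n) K (2 * b + 1)

theorem InJ.add {r : ℕ} {f g : MvPolynomial (Fin n) K} (hf : InJ K n r f) (hg : InJ K n r g) :
    InJ K n r (f + g) := by
  obtain ⟨c, hc, rfl⟩ := hf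
  obtain ⟨c', hc', rfl⟩ := hg
  refine ⟨fun k => c k + c' k, fun k => add_mem (hc k) (hc' k), ?_⟩
  rw [← Finset.sum_add_distrib]
  exact Finset.sum_congr rfl fun k _ => by ring

theorem InJ.mul {r : ℕ} {f g : MvPolynomial (Fin n) K} (hf : InJ K n r f) (hg : g ∈ B K n) :
    InJ K n r (g * f) := by
  obtain ⟨c, hc, rfl⟩ := hf
  refine ⟨fun k => g * c k, fun k => mul_mem hg (hc k), ?_⟩
  rw [Finset.mul_sum]
  exact Finset.sum_congr rfl fun k _ => by ring

theorem InJ.zero {r : ℕ} : InJ K n r 0 := ⟨fun _ => 0, fun _ => zero_mem _, by simp⟩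

theorem InJ.esymm {r : ℕ} (b : Fin r) : InJ K n r (esymm (Fin n) K (2 * b + 1)) := by
  classical
  refine ⟨fun i => if i = b then 1 else 0, fun i => ?_, ?_⟩
  · dsimp only
    split_ifs
    · exact one_mem _
    · exact zero_mem _
  · simp

theorem parity {r : ℕ} (hn : n = 2 * r) {f : MvPolynomial (Fin n) K} (hf : f ∈ B K n) :
    nu K n f ∈ B K n ∧ InJ K n r (f - nu K n f) := by
  refine Algebra.adjoin_induction (p := fun f _ => nu K n f ∈ B K n ∧ InJ K n r (f - nu K n f))
    ?_ ?_ ?_ ?_ hf
  · rintro _ ⟨k, hk, hkn, rfl⟩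
    rw [nu_homog (esymm_homog k)]
    refine ⟨mul_mem (pow_mem (neg_mem (one_mem _)) _) (esymm_mem_B k), ?_⟩
    rcases Nat.even_or_odd k with he | ho
    · rw [he.neg_one_pow, one_mul, sub_self]; exact InJ.zero
    · rw [ho.neg_one_pow]
      obtain ⟨b, rfl⟩ := ho
      have hb : b < r := by omega
      have := (InJ.esymm (K := K) (n := n) ⟨b, hb⟩)
      have h2 := this.add this
      simpa [sub_eq_add_neg] using h2
  · intro r
    rw [AlgHom.commutes, sub_self]
    exact ⟨Subalgebra.algebraMap_mem _ _, InJ.zero⟩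
  · intro x y _ _ hx hy
    rw [map_add]
    refine ⟨add_mem hx.1 hy.1, ?_⟩
    have := hx.2.add hy.2
    convert this using 1
    ring
  · intro x y hxB hyB hx hy
    rw [map_mul]
    refine ⟨mul_mem hx.1 hy.1, ?_⟩
    have := (hy.2.mul hxB).add (hx.2.mul hy.1)
    convert this using 1
    ring

theorem odd_InJ [CharZero K] {r : ℕ} (hn : n = 2 * r) {f : MvPolynomial (Fin n) K}
    (hf : f ∈ B K n) {k : ℕ} (hk : Odd k) (hh : f.IsHomogeneous k) : InJ K n r f := by
  have h := (parity hn hf).2
  rw [nu_homog hh, hk.neg_one_pow] at h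
  have h2 := h.mul (Subalgebra.algebraMap_mem (B K n) (1 / 2 : K))
  convert h2 using 1
  rw [algebraMap_eq]
  have h3 : (C (1 / 2 : K) : MvPolynomial (Fin n) K) * 2 = 1 := by
    have : (2 : MvPolynomial (Fin n) K) = C (2 : K) := (map_ofNat C 2).symm
    rw [this, ← C_mul]
    norm_num
  linear_combination (-f) * h3

end Parity

section Spec

variable {S : Type*} [CommRing S] {n r : ℕ}

/-- The point with coordinates `s_i, -u_i`. -/
def pt (e : Fin n ≃ Fin r × Fin 2) (s u : Fin r → S) (l : Fin n) : S :=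
  if (e l).2 = 0 then s (e l).1 else -u (e l).1

theorem pt_pow (e : Fin n ≃ Fin r × Fin 2) (s u : Fin r → S) {d : ℕ} (hd : Odd d) (l : Fin n) :
    pt e s u l ^ d = pt e (fun i => s i ^ d) (fun i => u i ^ d) l := by
  simp only [pt]
  split_ifs
  · rfl
  · exact hd.neg_pow _

open Polynomial in
theorem prod_pt (e : Fin n ≃ Fin r × Fin 2) (s u : Fin r → S) :
    ∏ l, (Polynomial.X + Polynomial.C (pt e s u l)) =
      ∏ i, ((Polynomial.X + Polynomial.C (s i)) * (Polynomial.X - Polynomial.C (u i))) := by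
  rw [← Equiv.prod_comp e.symm, Fintype.prod_prod_type]
  refine Finset.prod_congr rfl fun i _ => ?_
  rw [Fin.prod_univ_two]
  simp [pt, sub_eq_add_neg]

theorem aeval_esymm_coeff {K : Type*} [Field K] [Algebra K S] (y : Fin n → S) {k : ℕ}
    (hk : k ≤ n) :
    aeval y (esymm (Fin n) K k) =
      (∏ l, (Polynomial.X + Polynomial.C (y l))).coeff (n - k) := by
  rw [Finset.prod_X_add_C_coeff _ _ (by simp)]
  simp only [Finset.card_univ, Fintype.card_fin]
  rw [Nat.sub_sub_self hk]
  simp [esymm]

theorem pair_eq (s u : S) : (Polynomial.X + Polynomial.C s) * (Polynomial.X - Polynomial.C u) =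
    Polynomial.expand S 2 (Polynomial.X - Polynomial.C (s * u)) +
      Polynomial.C (s - u) * Polynomial.X := by
  simp only [map_sub, map_mul, Polynomial.expand_X, Polynomial.expand_C]
  ring

theorem prod_same (e : Fin n ≃ Fin r × Fin 2) (u : Fin r → S) :
    ∏ l, (Polynomial.X + Polynomial.C (pt e u u l)) =
      Polynomial.expand S 2 (∏ i, (Polynomial.X - Polynomial.C (u i ^ 2))) := by
  rw [prod_pt, map_prod]
  refine Finset.prod_congr rfl fun i _ => ?_
  rw [pair_eq, sub_self, Polynomial.C_0, zero_mul, add_zero, sq]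

theorem prod_one_diff (e : Fin n ≃ Fin r × Fin 2) (s u : Fin r → S) (i : Fin r)
    (h : ∀ k, k ≠ i → s k = u k) :
    ∏ l, (Polynomial.X + Polynomial.C (pt e s u l)) =
      Polynomial.expand S 2 ((Polynomial.X - Polynomial.C (s i * u i)) *
          ∏ k ∈ Finset.univ.erase i, (Polynomial.X - Polynomial.C (u k ^ 2))) +
        Polynomial.C (s i - u i) * (Polynomial.expand S 2
          (∏ k ∈ Finset.univ.erase i, (Polynomial.X - Polynomial.C (u k ^ 2))) *
            Polynomial.X) := by
  rw [prod_pt, ← Finset.mul_prod_erase _ _ (Finset.mem_univ i), pair_eq]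
  have : ∏ x ∈ Finset.univ.erase i, (Polynomial.X + Polynomial.C (s x)) *
      (Polynomial.X - Polynomial.C (u x)) = Polynomial.expand S 2
          (∏ k ∈ Finset.univ.erase i, (Polynomial.X - Polynomial.C (u k ^ 2))) := by
    rw [map_prod]
    refine Finset.prod_congr rfl fun k hk => ?_
    rw [h k (Finset.ne_of_mem_erase hk), pair_eq, sub_self, Polynomial.C_0, zero_mul, add_zero,
      sq]
  rw [this, map_mul (Polynomial.expand S 2)]
  ring

variable {K : Type*} [Field K] [Algebra K S]

theorem aeval_even (hn : n = 2 * r) (e : Fin n ≃ Fin r × Fin 2) (u : Fin r → S) {m : ℕ}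
    (hm : m ≤ r) :
    aeval (pt e u u) (esymm (Fin n) K (2 * m)) =
      (∏ i, (Polynomial.X - Polynomial.C (u i ^ 2))).coeff (r - m) := by
  rw [aeval_esymm_coeff _ (by omega), prod_same]
  have : n - 2 * m = 2 * (r - m) := by omega
  rw [this, Polynomial.coeff_expand_mul' (by norm_num)]

theorem aeval_odd (hn : n = 2 * r) (e : Fin n ≃ Fin r × Fin 2) (s u : Fin r → S) (i : Fin r)
    (h : ∀ k, k ≠ i → s k = u k) (b : Fin r) :
    aeval (pt e s u) (esymm (Fin n) K (2 * b + 1)) =
      (s i - u i) * (∏ k ∈ Finset.univ.erase i,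
        (Polynomial.X - Polynomial.C (u k ^ 2))).coeff (r - 1 - b) := by
  have hb := b.2
  rw [aeval_esymm_coeff _ (by omega), prod_one_diff e s u i h]
  have : n - (2 * b + 1) = 2 * (r - 1 - b) + 1 := by omega
  rw [this, Polynomial.coeff_add, Polynomial.coeff_expand (by norm_num), if_neg (by omega),
    zero_add, Polynomial.coeff_C_mul, Polynomial.coeff_mul_X,
    Polynomial.coeff_expand_mul' (by norm_num)]

theorem aeval_odd_zero (hn : n = 2 * r) (e : Fin n ≃ Fin r × Fin 2) (u : Fin r → S) (b : Fin r) :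
    aeval (pt e u u) (esymm (Fin n) K (2 * b + 1)) = 0 := by
  rw [aeval_odd hn e u u b (fun _ _ => rfl) b, sub_self, zero_mul]

theorem aeval_ehat {d : ℕ} (hd : Odd d) (e : Fin n ≃ Fin r × Fin 2) (s u : Fin r → S) (k : ℕ) :
    aeval (pt e s u) (ehat K n d k) =
      aeval (pt e (fun i => s i ^ d) (fun i => u i ^ d)) (esymm (Fin n) K k) := by
  have h : (aeval (pt e s u)).comp
      (aeval (fun i : Fin n => (X i : MvPolynomial (Fin n) K) ^ d)) =
      (aeval (pt e (fun i => s i ^ d) (fun i => u i ^ d)) : MvPolynomial (Fin n) K →ₐ[K] S) := by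
    ext i
    simp [pt_pow e s u hd]
  rw [← h]
  rfl

end Spec

section Vander

variable {S : Type*} [CommRing S] [IsDomain S] {r : ℕ}

/-- The matrix of coefficients of the polynomials `∏_{k ≠ i}(X - τ_k)`. -/
noncomputable def Dmat (τ : Fin r → S) : Matrix (Fin r) (Fin r) S :=
  fun i b => (∏ k ∈ Finset.univ.erase i, (Polynomial.X - Polynomial.C (τ k))).coeff (r - 1 - b)

theorem Q_coeff (τ : Fin r → S) (i : Fin r) (b : ℕ) (hb : b < r) :
    (∏ k ∈ Finset.univ.erase i, (Polynomial.X - Polynomial.C (τ k))).coeff (r - 1 - b) =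
      ∑ m ∈ Finset.range (b + 1),
        τ i ^ m * (∏ k, (Polynomial.X - Polynomial.C (τ k))).coeff (r - (b - m)) := by
  set Q := ∏ k ∈ Finset.univ.erase i, (Polynomial.X - Polynomial.C (τ k)) with hQ
  set P := ∏ k, (Polynomial.X - Polynomial.C (τ k)) with hP
  have hPQ : P = (Polynomial.X - Polynomial.C (τ i)) * Q := by
    rw [hP, hQ]
    exact (Finset.mul_prod_erase Finset.univ (fun k => Polynomial.X - Polynomial.C (τ k))
      (Finset.mem_univ i)).symm
  have hdeg : Q.natDegree = r - 1 := by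
    rw [hQ, Polynomial.natDegree_finsetProd_X_sub_C_eq_card]
    simp
  have hc : ∀ m, P.coeff (m + 1) = Q.coeff m - τ i * Q.coeff (m + 1) := by
    intro m
    rw [hPQ, sub_mul, Polynomial.coeff_sub, Polynomial.coeff_X_mul, Polynomial.coeff_C_mul]
  induction b with
  | zero =>
    simp only [Nat.sub_zero, zero_add, Finset.range_one, Finset.sum_singleton, pow_zero, one_mul]
    have := hc (r - 1)
    rw [Polynomial.coeff_eq_zero_of_natDegree_lt (p := Q) (n := r - 1 + 1) (by omega), mul_zero,
      sub_zero, Nat.sub_add_cancel (by omega)] at this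
    exact this.symm
  | succ b ih =>
    have h1 := hc (r - 1 - (b + 1))
    have h2 : r - 1 - (b + 1) + 1 = r - 1 - b := by omega
    rw [h2, ih (by omega)] at h1
    rw [Finset.sum_range_succ', Nat.sub_zero, pow_zero, one_mul]
    have h3 : r - (b + 1) = r - 1 - b := by omega
    rw [h3, h1, Finset.mul_sum]
    have h4 : ∑ k ∈ Finset.range (b + 1), τ i ^ (k + 1) * P.coeff (r - (b + 1 - (k + 1))) =
        ∑ m ∈ Finset.range (b + 1), τ i * (τ i ^ m * P.coeff (r - (b - m))) := by
      refine Finset.sum_congr rfl fun k _ => ?_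
      rw [Nat.add_sub_add_right]
      ring
    rw [h4]
    ring

theorem det_Dmat (τ : Fin r → S) : (Dmat τ).det = (Matrix.vandermonde τ).det := by
  set U : Matrix (Fin r) (Fin r) S := fun m b =>
    if m ≤ b then (∏ k, (Polynomial.X - Polynomial.C (τ k))).coeff (r - ((b : ℕ) - m)) else 0
    with hU
  have h1 : Dmat τ = Matrix.vandermonde τ * U := by
    ext i b
    rw [Matrix.mul_apply, Dmat, Q_coeff τ i b b.2]
    simp only [Matrix.vandermonde_apply, hU, mul_ite, mul_zero]
    rw [← Finset.sum_filter]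
    refine (Finset.sum_bij (fun (m : Fin r) _ => (m : ℕ)) ?_ ?_ ?_ ?_).symm
    · intro m hm
      simp only [Finset.mem_filter, Finset.mem_univ, true_and] at hm
      rw [Finset.mem_range]
      exact Nat.lt_succ_of_le hm
    · intro a _ b _ h
      exact Fin.ext h
    · intro m hm
      rw [Finset.mem_range] at hm
      refine ⟨⟨m, by have := b.2; omega⟩, ?_, rfl⟩
      simp only [Finset.mem_filter, Finset.mem_univ, true_and]
      exact Nat.le_of_lt_succ hm
    · intro m _
      rfl
  have h2 : U.det = 1 := by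
    rw [Matrix.det_of_isUpperTriangular]
    · refine Finset.prod_eq_one fun i _ => ?_
      simp only [hU, le_refl, if_true, Nat.sub_self, Nat.sub_zero]
      have hm : (∏ k, (Polynomial.X - Polynomial.C (τ k))).Monic :=
        Polynomial.monic_prod_of_monic _ _ fun k _ => Polynomial.monic_X_sub_C _
      have hd : (∏ k, (Polynomial.X - Polynomial.C (τ k))).natDegree = r := by
        rw [Polynomial.natDegree_finsetProd_X_sub_C_eq_card]
        simp
      have := hm.coeff_natDegree
      rwa [hd] at this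
    · intro i j hij
      simp only [hU]
      rw [if_neg]
      simpa using hij
  rw [h1, Matrix.det_mul, h2, mul_one]

end Vander

end Pool.Agent.MP_7753cf
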