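import Pool.Agent.Lib.MP_7753cf_ag_h64.Defs
import Pool.Agent.Lib.MP_7753cf_ag_h64.FewTerms

/-!
# MP_7753cf_ag: two variables, `d` even
-/

set_option autoImplicit false

open MvPolynomial

namespace Pool.Agent.MP_7753cf

variable {K : Type*} [Field K] {d : ℕ}

/-- `e_1 = x_1 + x_2`. -/
noncomputable abbrev pp (K : Type*) [Field K] : MvPolynomial (Fin 2) K := esymm (Fin 2) K 1

/-- `e_2 = x_1 x_2`. -/
noncomputable abbrev qq (K : Type*) [Field K] : MvPolynomial (Fin 2) K := esymm (Fin 2) K 2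

/-- power sums -/
noncomputable def NN (K : Type*) [Field K] (k : ℕ) : MvPolynomial (Fin 2) K :=
  X 0 ^ k + X 1 ^ k

theorem pp_eq : pp K = X 0 + X 1 := by
  rw [pp, esymm_one, Fin.sum_univ_two]

theorem qq_eq : qq K = X 0 * X 1 := by
  have : (Finset.powersetCard 2 (Finset.univ : Finset (Fin 2))) = {Finset.univ} := by
    rfl
  rw [qq, esymm, this, Finset.sum_singleton, Fin.prod_univ_two]

theorem ehat_one : ehat K 2 d 1 = NN K d := by
  have := pp_eq (K := K)
  rw [pp] at this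
  rw [ehat, this, NN]
  simp

theorem ehat_two : ehat K 2 d 2 = qq K ^ d := by
  have := qq_eq (K := K)
  rw [qq] at this
  rw [ehat, this, qq_eq]
  simp [mul_pow]

theorem NN_rec (k : ℕ) : NN K (k + 2) = pp K * NN K (k + 1) - qq K * NN K k := by
  rw [NN, NN, NN, pp_eq, qq_eq]
  ring

theorem NN_mem (k : ℕ) : NN K k ∈ B K 2 := by
  induction k using Nat.strong_induction_on with
  | _ k ih =>
    match k with
    | 0 => rw [NN, pow_zero, pow_zero]; exact add_mem (one_mem _) (one_mem _)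
    | 1 => rw [NN, pow_one, pow_one, ← pp_eq]; exact esymm_mem_B 1
    | (k + 2) =>
      rw [NN_rec]
      exact sub_mem (mul_mem (esymm_mem_B 1) (ih _ (by omega)))
        (mul_mem (esymm_mem_B 2) (ih _ (by omega)))

theorem NN_homog (k : ℕ) : (NN K k).IsHomogeneous k :=
  (isHomogeneous_X_pow 0 k).add (isHomogeneous_X_pow 1 k)

theorem InI_iff {f : MvPolynomial (Fin 2) K} : InI K 2 d f ↔
    ∃ a b, a ∈ B K 2 ∧ b ∈ B K 2 ∧ f = a * NN K d + b * qq K ^ d := by
  constructor
  · rintro ⟨c, hc, rfl⟩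
    refine ⟨c 1, c 2, hc 1, hc 2, ?_⟩
    have : Finset.Icc 1 2 = {1, 2} := rfl
    rw [this, Finset.sum_pair (by norm_num), ehat_one, ehat_two]
  · rintro ⟨a, b, ha, hb, rfl⟩
    have h1 := (InI.ehat (K := K) (n := 2) (d := d) (k := 1) le_rfl (by norm_num)).mul ha
    have h2 := (InI.ehat (K := K) (n := 2) (d := d) (k := 2) (by norm_num) le_rfl).mul hb
    rw [ehat_one] at h1
    rw [ehat_two] at h2
    exact h1.add h2

theorem InI.neg {n : ℕ} {f : MvPolynomial (Fin n) K} (hf : InI K n d f) : InI K n d (-f) := by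
  have := hf.mul (neg_mem (one_mem (B K n)))
  simpa using this

theorem InI.sub {n : ℕ} {f g : MvPolynomial (Fin n) K} (hf : InI K n d f)
    (hg : InI K n d g) : InI K n d (f - g) := by
  rw [sub_eq_add_neg]; exact hf.add hg.neg

/-- the span of the monomials in `e_1, e_2` of degree `j` -/
noncomputable def SS (K : Type*) [Field K] (j : ℕ) : Submodule K (MvPolynomial (Fin 2) K) :=
  Submodule.span K {f | ∃ a b : ℕ, a + 2 * b = j ∧ f = pp K ^ a * qq K ^ b}

theorem mono_homog (a b : ℕ) : (pp K ^ a * qq K ^ b).IsHomogeneous (a + 2 * b) := by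
  have h1 := (esymm_homog (K := K) (n := 2) 1).pow a
  have h2 := (esymm_homog (K := K) (n := 2) 2).pow b
  rw [one_mul] at h1
  exact h1.mul h2

theorem mono_mem (a b : ℕ) : pp K ^ a * qq K ^ b ∈ B K 2 :=
  mul_mem (pow_mem (esymm_mem_B 1) a) (pow_mem (esymm_mem_B 2) b)

theorem homog_mem_SS {f : MvPolynomial (Fin 2) K} (hf : f ∈ B K 2) {j : ℕ}
    (hh : f.IsHomogeneous j) : f ∈ SS K j := by
  classical
  obtain ⟨g, hg⟩ := esymmAlgHom_surjective (σ := Fin 2) (R := K) (n := 2) (by simp)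
    ⟨f, symm_of_mem_B hf⟩
  have h2 : f = aeval (fun i : Fin 2 => esymm (Fin 2) K (i + 1)) g := by
    have := congrArg Subtype.val hg
    simp only at this
    rw [← this, esymmAlgHom_apply]
  rw [g.as_sum, map_sum] at h2
  have h3 : f = ∑ s ∈ g.support, homogeneousComponent j
      (aeval (fun i : Fin 2 => esymm (Fin 2) K (i + 1)) (monomial s (coeff s g))) := by
    rw [← map_sum, ← h2, homogeneousComponent_eq_self hh]
  rw [h3]
  refine Submodule.sum_mem _ fun s _ => ?_
  rw [aeval_monomial, Finsupp.prod_fintype _ _ (fun i => pow_zero _), Fin.prod_univ_two,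
    algebraMap_eq, homogeneousComponent_C_mul]
  have h4 : homogeneousComponent j (esymm (Fin 2) K ((0 : Fin 2) + 1) ^ s 0 *
      esymm (Fin 2) K ((1 : Fin 2) + 1) ^ s 1) ∈ SS K j := by
    have h5 := mono_homog (K := K) (s 0) (s 1)
    have h6 := homogeneousComponent_of_mem (m := j) h5
    have h7 : homogeneousComponent j (esymm (Fin 2) K ((0 : Fin 2) + 1) ^ s 0 *
      esymm (Fin 2) K ((1 : Fin 2) + 1) ^ s 1) = homogeneousComponent j (pp K ^ s 0 * qq K ^ s 1) :=
      rfl
    rw [h7, h6]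
    split_ifs with h
    · exact Submodule.subset_span ⟨s 0, s 1, h.symm, rfl⟩
    · exact zero_mem _
  rw [← smul_eq_C_mul]
  exact Submodule.smul_mem _ _ h4

theorem SS_mem_B {f : MvPolynomial (Fin 2) K} {j : ℕ} (hf : f ∈ SS K j) :
    f ∈ B K 2 ∧ f.IsHomogeneous j := by
  refine Submodule.span_induction (p := fun f _ => f ∈ B K 2 ∧ f.IsHomogeneous j)
    ?_ ?_ ?_ ?_ hf
  · rintro _ ⟨a, b, h, rfl⟩
    exact ⟨mono_mem a b, h ▸ mono_homog a b⟩
  · exact ⟨zero_mem _, isHomogeneous_zero _ _ _⟩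
  · intro x y _ _ hx hy
    exact ⟨add_mem hx.1 hy.1, hx.2.add hy.2⟩
  · intro c x _ hx
    refine ⟨Subalgebra.smul_mem _ hx.1 c, ?_⟩
    rw [smul_eq_C_mul]
    have := (isHomogeneous_C (Fin 2) c).mul hx.2
    rwa [zero_add] at this

/-! ### Dehomogenisation -/

/-- `x_1 ↦ t`, `x_2 ↦ 1 - t`. -/
noncomputable def del (K : Type*) [Field K] : MvPolynomial (Fin 2) K →ₐ[K] Polynomial K :=
  aeval ![Polynomial.X, 1 - Polynomial.X]

theorem del_pp : del K (pp K) = 1 := by
  rw [pp_eq, del]; simp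

/-- `t(1-t)`. -/
noncomputable def vv (K : Type*) [Field K] : Polynomial K := Polynomial.X * (1 - Polynomial.X)

theorem del_qq : del K (qq K) = vv K := by
  rw [qq_eq, del, vv]; simp

theorem vv_natDegree : (vv K).natDegree = 2 := by
  have h : vv K = -(Polynomial.X * (Polynomial.X - Polynomial.C 1)) := by
    rw [vv, Polynomial.C_1]; ring
  rw [h, Polynomial.natDegree_neg, Polynomial.natDegree_mul Polynomial.X_ne_zero
    (Polynomial.X_sub_C_ne_zero 1), Polynomial.natDegree_X, Polynomial.natDegree_X_sub_C]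

theorem comp_vv_inj {f g : Polynomial K} (h : f.comp (vv K) = g.comp (vv K)) : f = g := by
  have h1 : (f - g).comp (vv K) = 0 := by rw [Polynomial.sub_comp, h, sub_self]
  rcases Polynomial.comp_eq_zero_iff.1 h1 with h2 | ⟨-, h2⟩
  · exact sub_eq_zero.1 h2
  · exfalso
    have h3 := vv_natDegree (K := K)
    rw [h2, Polynomial.natDegree_C] at h3
    omega

theorem del_NN (k : ℕ) :
    del K (NN K k) = ((Pk k).map (Int.castRingHom K)).comp (vv K) := by
  have h1 := Pk_eval (R := Polynomial K) Polynomial.X (1 - Polynomial.X) (by ring) k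
  have h2 : del K (NN K k) = Polynomial.X ^ k + (1 - Polynomial.X) ^ k := by
    rw [del, NN]; simp
  rw [h2, ← h1, Polynomial.comp, Polynomial.eval₂_map]
  congr 1

/-- the polynomial in `u = e_2/e_1^2` attached to a homogeneous element of `B` -/
theorem del_SS {f : MvPolynomial (Fin 2) K} {j : ℕ} (hf : f ∈ SS K j) :
    ∃ G : Polynomial K, (∀ i, j < 2 * i → G.coeff i = 0) ∧ del K f = G.comp (vv K) := by
  refine Submodule.span_induction (p := fun f _ => ∃ G : Polynomial K,
    (∀ i, j < 2 * i → G.coeff i = 0) ∧ del K f = G.comp (vv K)) ?_ ?_ ?_ ?_ hf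
  · rintro _ ⟨a, b, h, rfl⟩
    refine ⟨Polynomial.X ^ b, fun i hi => ?_, ?_⟩
    · rw [Polynomial.coeff_X_pow, if_neg (by omega)]
    · rw [map_mul, map_pow, map_pow, del_pp, del_qq, one_pow, one_mul, Polynomial.X_pow_comp]
  · exact ⟨0, by simp, by simp⟩
  · rintro x y _ _ ⟨G, hG, hx⟩ ⟨G', hG', hy⟩
    refine ⟨G + G', fun i hi => ?_, ?_⟩
    · rw [Polynomial.coeff_add, hG i hi, hG' i hi, add_zero]
    · rw [map_add, hx, hy, Polynomial.add_comp]
  · rintro c x _ ⟨G, hG, hx⟩
    refine ⟨c • G, fun i hi => ?_, ?_⟩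
    · rw [Polynomial.coeff_smul, hG i hi, smul_zero]
    · rw [map_smul, hx, Polynomial.smul_comp]

/-- A homogeneous element of `B` killed by `del` is zero. -/
theorem del_inj {f : MvPolynomial (Fin 2) K} {j : ℕ} (hf : f ∈ SS K j) (h0 : del K f = 0) :
    f = 0 := by
  classical
  -- write `f` as a combination
  have h1 : SS K j = Submodule.span K (Set.range fun i : Fin (j / 2 + 1) =>
      pp K ^ (j - 2 * (i : ℕ)) * qq K ^ (i : ℕ)) := by
    rw [SS]
    congr 1
    ext g
    constructor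
    · rintro ⟨a, b, h, rfl⟩
      refine ⟨⟨b, by omega⟩, ?_⟩
      have : j - 2 * b = a := by omega
      simp only [this]
    · rintro ⟨i, rfl⟩
      exact ⟨j - 2 * i, i, by have := i.2; omega, rfl⟩
  rw [h1, Submodule.mem_span_range_iff_exists_fun] at hf
  obtain ⟨c, rfl⟩ := hf
  have h2 : del K (∑ i, c i • (pp K ^ (j - 2 * (i : ℕ)) * qq K ^ (i : ℕ))) =
      (∑ i : Fin (j / 2 + 1), c i • Polynomial.X ^ (i : ℕ)).comp (vv K) := by
    rw [map_sum, Polynomial.sum_comp]
    refine Finset.sum_congr rfl fun i _ => ?_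
    rw [map_smul, map_mul, map_pow, map_pow, del_pp, del_qq, one_pow, one_mul,
      Polynomial.smul_comp, Polynomial.X_pow_comp]
  rw [h2] at h0
  have h3 : (∑ i : Fin (j / 2 + 1), c i • (Polynomial.X : Polynomial K) ^ (i : ℕ)) = 0 :=
    comp_vv_inj (by rw [h0, Polynomial.zero_comp])
  refine Finset.sum_eq_zero fun i _ => ?_
  have h4 := congrArg (fun P => P.coeff (i : ℕ)) h3
  simp only [Polynomial.finsetSum_coeff, Polynomial.coeff_smul, Polynomial.coeff_X_pow,
    smul_eq_mul, mul_ite, mul_one, mul_zero, Polynomial.coeff_zero] at h4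
  rw [Finset.sum_eq_single i] at h4
  · rw [if_pos rfl] at h4
    rw [h4, zero_smul]
  · intro b _ hb
    rw [if_neg]
    intro h; exact hb (Fin.ext h.symm)
  · intro h; exact absurd (Finset.mem_univ _) h

end Pool.Agent.MP_7753cf
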