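import Pool.Agent.Lib.MP_7753cf_ag_h64.TwoVar

/-!
# MP_7753cf_ag: two variables, `d` even (end)
-/

set_option autoImplicit false

open MvPolynomial

namespace Pool.Agent.MP_7753cf

variable {K : Type*} [Field K] {d : ℕ}

theorem homog_iff {f : MvPolynomial (Fin 2) K} {j : ℕ} :
    f ∈ SS K j ↔ f ∈ B K 2 ∧ f.IsHomogeneous j :=
  ⟨SS_mem_B, fun h => homog_mem_SS h.1 h.2⟩

/-- Injectivity: `p^(c-2j)` is injective on the homogeneous elements of degree `j ≤ d-1`. -/
theorem inj_main [CharZero K] {m : ℕ} (hm : 1 ≤ m) (hd : d = 2 * m) {j : ℕ} (hj : j + 1 ≤ d)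
    {f : MvPolynomial (Fin 2) K} (hf : f ∈ SS K j)
    (hI : InI K 2 d (pp K ^ (3 * (d - 1) - 2 * j) * f)) : f = 0 := by
  classical
  -- homogeneous components
  obtain ⟨a, b, ha, hb, hab⟩ := InI_iff.1 hI
  set D := 3 * (d - 1) - j with hD
  have hfh := (SS_mem_B hf).2
  have hhom : (pp K ^ (3 * (d - 1) - 2 * j) * f).IsHomogeneous D := by
    have h1 := ((esymm_homog (K := K) (n := 2) 1).pow (3 * (d - 1) - 2 * j)).mul hfh
    have h2 : 1 * (3 * (d - 1) - 2 * j) + j = D := by omega
    rwa [h2] at h1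
  have hqh : (qq K ^ d).IsHomogeneous (2 * d) := (esymm_homog (K := K) (n := 2) 2).pow d
  have h1 : pp K ^ (3 * (d - 1) - 2 * j) * f =
      homogeneousComponent (D - d) a * NN K d +
        (if 2 * d ≤ D then homogeneousComponent (D - 2 * d) b else 0) * qq K ^ d := by
    conv_lhs => rw [← homogeneousComponent_eq_self hhom, hab]
    rw [map_add, comp_mul (NN_homog d), comp_mul hqh, if_pos (by omega)]
    split_ifs <;> simp
  obtain ⟨G, hG, hGf⟩ := del_SS hf
  obtain ⟨A, hA, hAf⟩ := del_SS (homog_mem_SS (comp_mem_B ha (D - d))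
    (homogeneousComponent_isHomogeneous _ _))
  obtain ⟨Bp, hB, hBf⟩ : ∃ Bp : Polynomial K, (∀ i, (2 * d ≤ D → D - 2 * d < 2 * i) →
      Bp.coeff i = 0) ∧ del K (if 2 * d ≤ D then homogeneousComponent (D - 2 * d) b else 0) =
        Bp.comp (vv K) := by
    split_ifs with h
    · obtain ⟨Bp, h2, h3⟩ := del_SS (homog_mem_SS (comp_mem_B hb (D - 2 * d))
        (homogeneousComponent_isHomogeneous _ _))
      exact ⟨Bp, fun i hi => h2 i (hi h), h3⟩
    · exact ⟨0, fun i _ => by simp, by simp⟩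
  have h2 := congrArg (del K) h1
  rw [map_mul, map_pow, del_pp, one_pow, one_mul, map_add, map_mul, map_mul, map_pow, del_qq,
    hGf, hAf, hBf, del_NN, ← Polynomial.X_pow_comp, ← Polynomial.mul_comp,
    ← Polynomial.mul_comp, ← Polynomial.add_comp] at h2
  have h3 := comp_vv_inj h2
  have h4 : G - Bp * Polynomial.X ^ d =
      A * (Pk (2 * m)).map (Int.castRingHom K) := by
    rw [h3, hd]; ring
  have h5 : (G - Bp * Polynomial.X ^ d).support.card ≤ m := by
    have hsub : (G - Bp * Polynomial.X ^ d).support ⊆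
        Finset.range (j / 2 + 1) ∪
          (Finset.range (m - (j / 2 + 1))).image (fun i => i + d) := by
      intro i hi
      rw [Polynomial.mem_support_iff, Polynomial.coeff_sub, Polynomial.coeff_mul_X_pow'] at hi
      rw [Finset.mem_union, Finset.mem_range, Finset.mem_image]
      by_contra hcon
      push Not at hcon
      apply hi
      rw [hG i (by omega)]
      split_ifs with h
      · rw [hB (i - d), sub_zero]
        intro hDd
        by_contra h6
        refine hcon.2 (i - d) ?_ (by omega)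
        rw [Finset.mem_range]
        omega
      · rw [sub_zero]
    refine (Finset.card_le_card hsub).trans ((Finset.card_union_le _ _).trans ?_)
    rw [Finset.card_range]
    have := Finset.card_image_le (s := Finset.range (m - (j / 2 + 1))) (f := fun i => i + d)
    rw [Finset.card_range] at this
    omega
  have h6 := few_terms_field m _ A h4 h5
  have h7 : G = 0 := by
    ext i
    rw [Polynomial.coeff_zero]
    by_cases hi : j < 2 * i
    · exact hG i hi
    · have h8 := congrArg (fun P => Polynomial.coeff P i) h6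
      simp only [Polynomial.coeff_sub, Polynomial.coeff_mul_X_pow', Polynomial.coeff_zero] at h8
      rwa [if_neg (by omega), sub_zero] at h8
  exact del_inj hf (by rw [hGf, h7, Polynomial.zero_comp])

theorem NN_even (k : ℕ) : ∃ h, h ∈ B K 2 ∧ h.IsHomogeneous (2 * k + 1) ∧
    NN K (2 * k + 2) = 2 * (-1) ^ (k + 1) * qq K ^ (k + 1) + pp K * h := by
  induction k with
  | zero =>
    refine ⟨NN K 1, NN_mem 1, NN_homog 1, ?_⟩
    have h0 : NN K 0 = 2 := by rw [NN, pow_zero, pow_zero]; norm_num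
    have h1 := NN_rec (K := K) 0
    rw [h0] at h1
    simp only [mul_zero, zero_add] at h1 ⊢
    rw [h1]; ring
  | succ k ih =>
    obtain ⟨h, hB, hh, he⟩ := ih
    refine ⟨NN K (2 * k + 3) - qq K * h, sub_mem (NN_mem _) (mul_mem (esymm_mem_B 2) hB), ?_, ?_⟩
    · have h1 := NN_homog (K := K) (2 * k + 3)
      have h2 := (esymm_homog (K := K) (n := 2) 2).mul hh
      have h3 : 2 + (2 * k + 1) = 2 * k + 3 := by ring
      rw [h3] at h2
      exact h1.sub h2
    · have h1 := NN_rec (K := K) (2 * k + 2)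
      have h2 : 2 * (k + 1) + 2 = 2 * k + 2 + 2 := by ring
      rw [h2, h1, he]
      have h3 : 2 * k + 2 + 1 = 2 * k + 3 := by ring
      rw [h3]
      ring

/-- `p` maps `A_i` onto `A_{i+1}` for `i ≥ d - 1`, `d` even. -/
theorem surj_step [CharZero K] {m : ℕ} (hm : 1 ≤ m) (hd : d = 2 * m) {i : ℕ} (hi : d ≤ i + 1)
    {f : MvPolynomial (Fin 2) K} (hf : f ∈ SS K (i + 1)) :
    ∃ g ∈ SS K i, InI K 2 d (f - pp K * g) := by
  refine Submodule.span_induction (p := fun f _ => ∃ g ∈ SS K i, InI K 2 d (f - pp K * g))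
    ?_ ?_ ?_ ?_ hf
  · rintro _ ⟨a, b, hab, rfl⟩
    rcases Nat.eq_zero_or_pos a with rfl | ha
    · -- a power of `q`
      obtain ⟨h, hB, hh, he⟩ := NN_even (K := K) (m - 1)
      have h1 : 2 * (m - 1) + 2 = d := by omega
      have h2 : m - 1 + 1 = m := by omega
      rw [h1, h2] at he
      set c : K := (-1) ^ m / 2 with hc
      have hcC : (C c : MvPolynomial (Fin 2) K) * (2 * (-1) ^ m) = 1 := by
        have h3 : (2 * (-1) ^ m : MvPolynomial (Fin 2) K) = C (2 * (-1) ^ m : K) := by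
          simp only [map_mul, map_pow, map_neg, map_one]
          rw [map_ofNat C 2]
        rw [h3, ← C_mul, hc]
        have h4 : (-1 : K) ^ m / 2 * (2 * (-1) ^ m) = 1 := by
          have : (-1 : K) ^ m * (-1) ^ m = 1 := by rw [← mul_pow]; simp
          field_simp
          linear_combination this
        rw [h4, C_1]
      refine ⟨-(C c * h * qq K ^ (b - m)), ?_, ?_⟩
      · rw [homog_iff]
        refine ⟨neg_mem (mul_mem (mul_mem (Subalgebra.algebraMap_mem _ c) hB)
          (pow_mem (esymm_mem_B 2) _)), ?_⟩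
        have h5 := ((isHomogeneous_C (Fin 2) c).mul hh).mul
          ((esymm_homog (K := K) (n := 2) 2).pow (b - m))
        have h6 : 0 + (2 * (m - 1) + 1) + 2 * (b - m) = i := by omega
        rw [h6] at h5
        exact h5.neg
      · have h7 : InI K 2 d ((C c * qq K ^ (b - m)) * NN K d) := by
          have := (InI.ehat (K := K) (n := 2) (d := d) (k := 1) le_rfl (by norm_num)).mul
            (mul_mem (Subalgebra.algebraMap_mem (B K 2) c) (pow_mem (esymm_mem_B 2) (b - m)))
          rw [ehat_one] at this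
          exact this
        have h8 : qq K ^ b = qq K ^ (b - m) * qq K ^ m := by
          rw [← pow_add]; congr 1; omega
        convert h7 using 1
        rw [he, pow_zero, one_mul, h8]
        linear_combination (-(qq K ^ (b - m) * qq K ^ m)) * hcC
    · refine ⟨pp K ^ (a - 1) * qq K ^ b, Submodule.subset_span ⟨a - 1, b, by omega, rfl⟩, ?_⟩
      have : pp K ^ a * qq K ^ b - pp K * (pp K ^ (a - 1) * qq K ^ b) = 0 := by
        obtain ⟨a', rfl⟩ : ∃ a', a = a' + 1 := ⟨a - 1, by omega⟩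
        rw [Nat.add_sub_cancel]; ring
      rw [this]; exact InI.zero
  · exact ⟨0, zero_mem _, by simpa using InI.zero⟩
  · rintro x y _ _ ⟨g, hg, hx⟩ ⟨g', hg', hy⟩
    refine ⟨g + g', add_mem hg hg', ?_⟩
    have := hx.add hy
    convert this using 1
    ring
  · rintro c x _ ⟨g, hg, hx⟩
    refine ⟨c • g, Submodule.smul_mem _ _ hg, ?_⟩
    have := hx.mul (Subalgebra.algebraMap_mem (B K 2) c)
    convert this using 1
    rw [algebraMap_eq, smul_eq_C_mul, smul_eq_C_mul]
    ring

theorem surj_iter [CharZero K] {m : ℕ} (hm : 1 ≤ m) (hd : d = 2 * m) {i : ℕ} (hi : d ≤ i + 1)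
    (k : ℕ) {f : MvPolynomial (Fin 2) K} (hf : f ∈ SS K (i + k)) :
    ∃ g ∈ SS K i, InI K 2 d (f - pp K ^ k * g) := by
  induction k generalizing f with
  | zero => exact ⟨f, hf, by simpa using InI.zero⟩
  | succ k ih =>
    obtain ⟨g, hg, h1⟩ := surj_step hm hd (i := i + k) (by omega) hf
    obtain ⟨g', hg', h2⟩ := ih hg
    refine ⟨g', hg', ?_⟩
    have := h1.add (h2.mul (esymm_mem_B 1))
    convert this using 1
    rw [pow_succ]
    ring

/-- `N_k = p^k +` terms divisible by `q`. -/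
theorem NN_top (k : ℕ) (hk : 1 ≤ k) : NN K k - pp K ^ k ∈
    Submodule.span K {f | ∃ a b : ℕ, a + 2 * b = k ∧ 1 ≤ b ∧ f = pp K ^ a * qq K ^ b} := by
  have key : ∀ k, NN K k ∈ SS K k := fun k => homog_mem_SS (NN_mem k) (NN_homog k)
  induction k using Nat.strong_induction_on with
  | _ k ih =>
    match k, hk with
    | 1, _ =>
      have : NN K 1 - pp K ^ 1 = 0 := by rw [NN, pp_eq]; ring
      rw [this]; exact zero_mem _
    | (k + 2), _ =>
      have h1 := ih (k + 1) (by omega) (by omega)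
      have h2 : NN K (k + 2) - pp K ^ (k + 2) =
          pp K * (NN K (k + 1) - pp K ^ (k + 1)) - qq K * NN K k := by
        rw [NN_rec]; ring
      rw [h2]
      refine sub_mem ?_ ?_
      · refine Submodule.span_induction (p := fun f _ => pp K * f ∈ Submodule.span K
          {f | ∃ a b : ℕ, a + 2 * b = k + 2 ∧ 1 ≤ b ∧ f = pp K ^ a * qq K ^ b}) ?_ ?_ ?_ ?_ h1
        · rintro _ ⟨a, b, hab, hb, rfl⟩
          exact Submodule.subset_span ⟨a + 1, b, by omega, hb, by ring⟩
        · rw [mul_zero]; exact zero_mem _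
        · intro x y _ _ hx hy
          rw [mul_add]; exact add_mem hx hy
        · intro c x _ hx
          rw [mul_smul_comm]; exact Submodule.smul_mem _ _ hx
      · refine Submodule.span_induction (p := fun f _ => qq K * f ∈ Submodule.span K
          {f | ∃ a b : ℕ, a + 2 * b = k + 2 ∧ 1 ≤ b ∧ f = pp K ^ a * qq K ^ b})
          ?_ ?_ ?_ ?_ (key k)
        · rintro _ ⟨a, b, hab, rfl⟩
          exact Submodule.subset_span ⟨a, b + 1, by omega, by omega, by ring⟩
        · rw [mul_zero]; exact zero_mem _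
        · intro x y _ _ hx hy
          rw [mul_add]; exact add_mem hx hy
        · intro c x _ hx
          rw [mul_smul_comm]; exact Submodule.smul_mem _ _ hx

/-- the reduced monomials -/
noncomputable def TT (K : Type*) [Field K] (d i : ℕ) : Submodule K (MvPolynomial (Fin 2) K) :=
  Submodule.span K {f | ∃ a b : ℕ, a < d ∧ b < d ∧ a + 2 * b = i ∧ f = pp K ^ a * qq K ^ b}

theorem red_mono (hd : 1 ≤ d) (a b : ℕ) :
    ∃ g ∈ TT K d (a + 2 * b), InI K 2 d (pp K ^ a * qq K ^ b - g) := by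
  induction a using Nat.strong_induction_on generalizing b with
  | _ a ih =>
    by_cases hb : b < d
    · by_cases ha : a < d
      · exact ⟨_, Submodule.subset_span ⟨a, b, ha, hb, rfl, rfl⟩, by rw [sub_self]; exact InI.zero⟩
      · -- reduce `p^d`
        have h1 : InI K 2 d ((pp K ^ (a - d) * qq K ^ b) * NN K d) := by
          have := (InI.ehat (K := K) (n := 2) (d := d) (k := 1) le_rfl (by norm_num)).mul
            (mono_mem (a - d) b)
          rw [ehat_one] at this
          exact this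
        have h2 : ∃ g ∈ TT K d (a + 2 * b), InI K 2 d
            ((pp K ^ (a - d) * qq K ^ b) * (NN K d - pp K ^ d) - g) := by
          refine Submodule.span_induction (p := fun f _ => ∃ g ∈ TT K d (a + 2 * b), InI K 2 d
            ((pp K ^ (a - d) * qq K ^ b) * f - g)) ?_ ?_ ?_ ?_ (NN_top d hd)
          · rintro _ ⟨a', b', hab, hb', rfl⟩
            obtain ⟨g, hg, h3⟩ := ih (a - d + a') (by omega) (b + b')
            have h4 : a - d + a' + 2 * (b + b') = a + 2 * b := by omega
            rw [h4] at hg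
            refine ⟨g, hg, ?_⟩
            convert h3 using 1
            ring
          · exact ⟨0, zero_mem _, by simpa using InI.zero⟩
          · rintro x y _ _ ⟨g, hg, hx⟩ ⟨g', hg', hy⟩
            refine ⟨g + g', add_mem hg hg', ?_⟩
            have := hx.add hy
            convert this using 1
            ring
          · rintro c x _ ⟨g, hg, hx⟩
            refine ⟨c • g, Submodule.smul_mem _ _ hg, ?_⟩
            have := hx.mul (Subalgebra.algebraMap_mem (B K 2) c)
            convert this using 1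
            rw [algebraMap_eq, smul_eq_C_mul, smul_eq_C_mul]
            ring
        obtain ⟨g, hg, h3⟩ := h2
        refine ⟨-g, neg_mem hg, ?_⟩
        have h4 := h1.sub h3
        convert h4 using 1
        have h5 : pp K ^ a = pp K ^ (a - d) * pp K ^ d := by
          rw [← pow_add]; congr 1; omega
        rw [h5]; ring
    · refine ⟨0, zero_mem _, ?_⟩
      have := (InI.ehat (K := K) (n := 2) (d := d) (k := 2) (by norm_num) le_rfl).mul
            (mono_mem a (b - d))
      rw [ehat_two] at this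
      convert this using 1
      have h5 : qq K ^ b = qq K ^ (b - d) * qq K ^ d := by
        rw [← pow_add]; congr 1; omega
      rw [h5]; ring

theorem red_SS (hd : 1 ≤ d) {i : ℕ} {f : MvPolynomial (Fin 2) K} (hf : f ∈ SS K i) :
    ∃ g ∈ TT K d i, InI K 2 d (f - g) := by
  refine Submodule.span_induction (p := fun f _ => ∃ g ∈ TT K d i, InI K 2 d (f - g))
    ?_ ?_ ?_ ?_ hf
  · rintro _ ⟨a, b, rfl, rfl⟩
    exact red_mono hd a b
  · exact ⟨0, zero_mem _, by simpa using InI.zero⟩
  · rintro x y _ _ ⟨g, hg, hx⟩ ⟨g', hg', hy⟩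
    refine ⟨g + g', add_mem hg hg', ?_⟩
    have := hx.add hy
    convert this using 1
    ring
  · rintro c x _ ⟨g, hg, hx⟩
    refine ⟨c • g, Submodule.smul_mem _ _ hg, ?_⟩
    have := hx.mul (Subalgebra.algebraMap_mem (B K 2) c)
    convert this using 1
    rw [algebraMap_eq, smul_eq_C_mul, smul_eq_C_mul]
    ring

/-- `A_i = 0` above the socle degree. -/
theorem above_socle (hd : 1 ≤ d) {i : ℕ} (hi : 3 * (d - 1) < i) {f : MvPolynomial (Fin 2) K}
    (hf : f ∈ SS K i) : InI K 2 d f := by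
  obtain ⟨g, hg, h⟩ := red_SS hd hf
  have : TT K d i = ⊥ := by
    rw [TT, Submodule.span_eq_bot]
    rintro x ⟨a, b, ha, hb, hab, -⟩
    omega
  rw [this, Submodule.mem_bot] at hg
  rwa [hg, sub_zero] at h

/-- Surjectivity of `p^(c-2j) : A_j → A_{c-j}` for `j ≤ d-1`. -/
theorem surj_main [CharZero K] {m : ℕ} (hm : 1 ≤ m) (hd : d = 2 * m) {j : ℕ} (hj : j + 1 ≤ d)
    {f : MvPolynomial (Fin 2) K} (hf : f ∈ SS K (3 * (d - 1) - j)) :
    ∃ g ∈ SS K j, InI K 2 d (f - pp K ^ (3 * (d - 1) - 2 * j) * g) := by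
  classical
  set k := 3 * (d - 1) - 2 * j with hk
  set Q : B K 2 →ₐ[K] A K 2 d := Ideal.Quotient.mkₐ K (hatIdeal K 2 d) with hQ
  -- the source
  set bas : Fin (j / 2 + 1) → B K 2 := fun i =>
    ⟨pp K ^ (j - 2 * (i : ℕ)) * qq K ^ (i : ℕ), mono_mem _ _⟩ with hbas
  have hbasS : ∀ i, (bas i : MvPolynomial (Fin 2) K) ∈ SS K j := fun i =>
    Submodule.subset_span ⟨j - 2 * (i : ℕ), i, by have := i.2; omega, rfl⟩
  set P : B K 2 := ⟨pp K, esymm_mem_B 1⟩ with hP
  set Φ : (Fin (j / 2 + 1) → K) →ₗ[K] A K 2 d :=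
    Fintype.linearCombination K (fun i => Q (P ^ k * bas i)) with hΦ
  have hΦe : ∀ c, Φ c = Q (P ^ k * ∑ i, c i • bas i) := by
    intro c
    rw [hΦ, Fintype.linearCombination_apply, Finset.mul_sum, map_sum]
    refine Finset.sum_congr rfl fun i _ => ?_
    rw [mul_smul_comm, map_smul]
  have hcomb : ∀ c : Fin (j / 2 + 1) → K,
      ((∑ i, c i • bas i : B K 2) : MvPolynomial (Fin 2) K) ∈ SS K j := by
    intro c
    have : ((∑ i, c i • bas i : B K 2) : MvPolynomial (Fin 2) K) =
        ∑ i, c i • (bas i : MvPolynomial (Fin 2) K) := by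
      simp
    rw [this]
    exact Submodule.sum_mem _ fun i _ => Submodule.smul_mem _ _ (hbasS i)
  have hinj : Function.Injective Φ := by
    rw [← LinearMap.ker_eq_bot, LinearMap.ker_eq_bot']
    intro c hc
    rw [hΦe, hQ, Ideal.Quotient.mkₐ_eq_mk, Ideal.Quotient.eq_zero_iff_mem,
      mem_hatIdeal_iff] at hc
    have h0 := inj_main hm hd hj (hcomb c) hc
    -- coefficients vanish
    have h1 : del K ((∑ i, c i • bas i : B K 2) : MvPolynomial (Fin 2) K) =
        (∑ i : Fin (j / 2 + 1), c i • Polynomial.X ^ (i : ℕ)).comp (vv K) := by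
      have : ((∑ i, c i • bas i : B K 2) : MvPolynomial (Fin 2) K) =
          ∑ i, c i • (bas i : MvPolynomial (Fin 2) K) := by
        simp
      rw [this, map_sum, Polynomial.sum_comp]
      refine Finset.sum_congr rfl fun i _ => ?_
      simp only [hbas]
      rw [map_smul, map_mul, map_pow, map_pow, del_pp, del_qq, one_pow, one_mul,
        Polynomial.smul_comp, Polynomial.X_pow_comp]
    rw [h0, map_zero] at h1
    have h3 : (∑ i : Fin (j / 2 + 1), c i • (Polynomial.X : Polynomial K) ^ (i : ℕ)) = 0 :=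
      comp_vv_inj (by rw [← h1, Polynomial.zero_comp])
    ext i
    have h4 := congrArg (fun P => Polynomial.coeff P (i : ℕ)) h3
    simp only [Polynomial.finsetSum_coeff, Polynomial.coeff_smul, Polynomial.coeff_X_pow,
      smul_eq_mul, mul_ite, mul_one, mul_zero, Polynomial.coeff_zero] at h4
    rw [Finset.sum_eq_single i] at h4
    · rwa [if_pos rfl] at h4
    · intro b _ hb
      rw [if_neg]
      intro h; exact hb (Fin.ext h.symm)
    · intro h; exact absurd (Finset.mem_univ _) h
  -- the target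
  set tar : Fin (j / 2 + 1) → A K 2 d := fun i =>
    Q ⟨pp K ^ (d - 1 - (j - 2 * (i : ℕ))) * qq K ^ (d - 1 - (i : ℕ)), mono_mem _ _⟩ with htar
  set T' : Submodule K (A K 2 d) := Submodule.span K (Set.range tar) with hT'
  have hTT : ∀ g : B K 2, (g : MvPolynomial (Fin 2) K) ∈ TT K d (3 * (d - 1) - j) →
      Q g ∈ T' := by
    intro g hg
    have h1 : ∀ x (hx : x ∈ TT K d (3 * (d - 1) - j)), ∃ hB : x ∈ B K 2, Q ⟨x, hB⟩ ∈ T' := by
      intro x hx
      refine Submodule.span_induction (p := fun x _ => ∃ hB : x ∈ B K 2, Q ⟨x, hB⟩ ∈ T')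
        ?_ ?_ ?_ ?_ hx
      · rintro _ ⟨a, b, ha, hb, hab, rfl⟩
        refine ⟨mono_mem a b, Submodule.subset_span ⟨⟨d - 1 - b, by omega⟩, ?_⟩⟩
        simp only [htar]
        have e1 : d - 1 - (j - 2 * (d - 1 - b)) = a := by omega
        have e2 : d - 1 - (d - 1 - b) = b := by omega
        simp only [e1, e2]
      · exact ⟨zero_mem _, by
          have : Q (0 : B K 2) ∈ T' := by rw [map_zero]; exact zero_mem _
          exact this⟩
      · rintro x y _ _ ⟨hx, hxT⟩ ⟨hy, hyT⟩
        refine ⟨add_mem hx hy, ?_⟩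
        have : Q (⟨x, hx⟩ + ⟨y, hy⟩ : B K 2) ∈ T' := by rw [map_add]; exact add_mem hxT hyT
        exact this
      · rintro c x _ ⟨hx, hxT⟩
        refine ⟨Subalgebra.smul_mem _ hx c, ?_⟩
        have : Q (c • (⟨x, hx⟩ : B K 2)) ∈ T' := by
          rw [map_smul]; exact Submodule.smul_mem _ _ hxT
        exact this
    obtain ⟨_, h2⟩ := h1 g.1 hg
    exact h2
  have hSS : ∀ g : B K 2, (g : MvPolynomial (Fin 2) K) ∈ SS K (3 * (d - 1) - j) →
      Q g ∈ T' := by
    intro g hg
    obtain ⟨g', hg', h1⟩ := red_SS (by omega : 1 ≤ d) hg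
    have hg'B : g' ∈ B K 2 := by
      have : TT K d (3 * (d - 1) - j) ≤ SS K (3 * (d - 1) - j) := by
        refine Submodule.span_mono ?_
        rintro x ⟨a, b, _, _, hab, rfl⟩
        exact ⟨a, b, hab, rfl⟩
      exact (SS_mem_B (this hg')).1
    have h2 : Q g = Q ⟨g', hg'B⟩ := by
      rw [hQ, Ideal.Quotient.mkₐ_eq_mk, Ideal.Quotient.eq, mem_hatIdeal_iff]
      exact h1
    rw [h2]
    exact hTT _ hg'
  have hle : LinearMap.range Φ ≤ T' := by
    rintro _ ⟨c, rfl⟩
    rw [hΦe]
    refine hSS _ ?_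
    rw [homog_iff]
    refine ⟨(P ^ k * ∑ i, c i • bas i : B K 2).2, ?_⟩
    have h1 := ((esymm_homog (K := K) (n := 2) 1).pow k).mul (SS_mem_B (hcomb c)).2
    have h2 : 1 * k + j = 3 * (d - 1) - j := by omega
    rw [h2] at h1
    exact h1
  have hfr1 : Module.finrank K (LinearMap.range Φ) = j / 2 + 1 := by
    rw [LinearMap.finrank_range_of_inj hinj, Module.finrank_fin_fun]
  have hfr2 : Module.finrank K T' ≤ j / 2 + 1 := by
    have := finrank_range_le_card (R := K) tar
    rw [Fintype.card_fin] at this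
    exact this
  have : Module.Finite K T' := by
    rw [hT']; exact Module.Finite.span_of_finite K (Set.finite_range tar)
  have heq : LinearMap.range Φ = T' :=
    Submodule.eq_of_le_of_finrank_le hle (by omega)
  have hfB := (SS_mem_B hf).1
  have h1 : Q ⟨f, hfB⟩ ∈ T' := hSS _ hf
  rw [← heq] at h1
  obtain ⟨c, hc⟩ := h1
  refine ⟨_, hcomb c, ?_⟩
  rw [hΦe, hQ, Ideal.Quotient.mkₐ_eq_mk, eq_comm, Ideal.Quotient.eq, mem_hatIdeal_iff] at hc
  exact hc

/-- For `d` even, `A(2,d)` has the strong Lefschetz property. -/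
theorem SLP_two_even [CharZero K] {m : ℕ} (hm : 1 ≤ m) (hd : d = 2 * m) : SLP K 2 d := by
  set P : B K 2 := ⟨pp K, esymm_mem_B 1⟩ with hP
  refine ⟨Ideal.Quotient.mk _ P, ⟨P, esymm_homog 1, rfl⟩, fun j k hk => ?_⟩
  -- surjectivity from a statement about polynomials
  have hsurj : (∀ f ∈ SS K (j + k), ∃ g ∈ SS K j, InI K 2 d (f - pp K ^ k * g)) →
      Set.SurjOn (fun a => (Ideal.Quotient.mk (hatIdeal K 2 d) P) ^ k * a) (piece K 2 d j)
        (piece K 2 d (j + k)) := by
    rintro h _ ⟨f, hf, rfl⟩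
    obtain ⟨g, hg, h1⟩ := h f.1 (homog_mem_SS f.2 hf)
    obtain ⟨hgB, hgh⟩ := SS_mem_B hg
    refine ⟨Ideal.Quotient.mk _ ⟨g, hgB⟩, ⟨⟨g, hgB⟩, hgh, rfl⟩, ?_⟩
    dsimp only
    rw [← map_pow, ← map_mul, eq_comm, Ideal.Quotient.eq, mem_hatIdeal_iff]
    exact h1
  have hd1 : 1 ≤ d := by omega
  by_cases hjk : 3 * (d - 1) < j + k
  · refine Or.inr (hsurj fun f hf => ⟨0, zero_mem _, ?_⟩)
    rw [mul_zero, sub_zero]
    exact above_socle hd1 hjk hf
  by_cases hj : d ≤ j + 1
  · exact Or.inr (hsurj fun f hf => surj_iter hm hd hj k hf)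
  by_cases hjk2 : 2 * j + k ≤ 3 * (d - 1)
  · left
    rintro _ ⟨f1, hf1, rfl⟩ _ ⟨f2, hf2, rfl⟩ h
    dsimp only at h
    rw [← map_pow, ← map_mul, ← map_mul, Ideal.Quotient.eq, mem_hatIdeal_iff] at h
    have h1 : ((P ^ k * f1 - P ^ k * f2 : B K 2) : MvPolynomial (Fin 2) K) =
        pp K ^ k * (f1.1 - f2.1) := by
      rw [mul_sub]
      rfl
    rw [h1] at h
    have h2 : (f1.1 - f2.1) ∈ SS K j := homog_mem_SS (sub_mem f1.2 f2.2) (hf1.sub hf2)
    have h3 := h.mul (pow_mem (esymm_mem_B (K := K) (n := 2) 1) (3 * (d - 1) - 2 * j - k))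
    have h4 : esymm (Fin 2) K 1 ^ (3 * (d - 1) - 2 * j - k) * (pp K ^ k * (f1.1 - f2.1)) =
        pp K ^ (3 * (d - 1) - 2 * j) * (f1.1 - f2.1) := by
      rw [← mul_assoc, ← pow_add]
      congr 2
      omega
    rw [h4] at h3
    have h5 := inj_main hm hd (by omega) h2 h3
    rw [Subtype.ext (sub_eq_zero.1 h5)]
  · refine Or.inr (hsurj fun f hf => ?_)
    obtain ⟨j', hj'⟩ : ∃ j', j' = 3 * (d - 1) - j - k := ⟨_, rfl⟩
    have h1 : j + k = 3 * (d - 1) - j' := by omega
    rw [h1] at hf
    obtain ⟨g, hg, h2⟩ := surj_main hm hd (j := j') (by omega) hf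
    refine ⟨pp K ^ (j - j') * g, ?_, ?_⟩
    · rw [homog_iff]
      obtain ⟨hgB, hgh⟩ := SS_mem_B hg
      refine ⟨mul_mem (pow_mem (esymm_mem_B 1) _) hgB, ?_⟩
      have h3 := ((esymm_homog (K := K) (n := 2) 1).pow (j - j')).mul hgh
      have h4 : 1 * (j - j') + j' = j := by omega
      rw [h4] at h3
      exact h3
    · convert h2 using 2
      rw [← mul_assoc, ← pow_add]
      congr 2
      omega

/-- The trivial case `d = 1`. -/
theorem SLP_two_one : SLP K 2 1 := by
  refine ⟨0, ⟨0, isHomogeneous_zero _ _ _, map_zero _⟩, fun j k hk => Or.inr ?_⟩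
  rintro _ ⟨f, hf, rfl⟩
  refine ⟨0, ⟨0, isHomogeneous_zero _ _ _, map_zero _⟩, ?_⟩
  dsimp only
  rw [mul_zero, eq_comm, Ideal.Quotient.eq_zero_iff_mem, mem_hatIdeal_iff]
  exact above_socle le_rfl (by omega) (homog_mem_SS f.2 hf)

end Pool.Agent.MP_7753cf
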